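import Pool.Agent.H970.RG.Defs
import Pool.Graph.R_seed8.Y13.QM.Fin

/-! # Couplings of finite range: definitions, rational approximation -/

set_option autoImplicit false
set_option linter.unusedSectionVars false

noncomputable section

namespace Pool.Agent.H970.SL

open MvPolynomial MeasureTheory Pool.Agent.H5R2.ON Pool.Agent.H717R2.ON3 Pool.Agent.H983R2.ONJ
open Pool.Agent.H983R2.ONJ.Aux993 Pool.Agent.H983R2.ONJ.AuxFin269 Pool.Agent.H983R2.ONJ.Aux602
open Pool.Agent.Y13.QM Pool.Agent.H970.RG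

/-- ferromagnetic couplings of range at most `ρ` and second moments at most `K` -/
structure Fr {L : ℕ} [NeZero L] (ρ K : ℝ) (c : Tor L × Tor L → ℝ) : Prop where
  nn : ∀ e, 0 ≤ c e
  range : ∀ e, c e ≠ 0 → tnorm (e.2 - e.1) ≤ ρ
  row : ∀ x, ∑ y, c (x, y) * tnorm (y - x) ^ 2 ≤ K
  col : ∀ x, ∑ y, c (y, x) * tnorm (x - y) ^ 2 ≤ K

/-- The influence of the boundary condition on the spin in the centre of a ball of radius `R`
is at most `m`. -/
def MBF (N : ℕ) (ρ K R m : ℝ) : Prop :=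
  ∀ (L : ℕ) [NeZero L], 2 * R < L → ∀ c : Tor L × Tor L → ℝ, Fr ρ K c →
    ∀ (p : Tor L) (η : Conf N L) (i : Fin N),
    |gH (pS c) (ball p R) η (fun S => cc i (S p))| ≤ m

theorem MBF_one (N : ℕ) (hN : 3 ≤ N) (ρ K R : ℝ) : MBF N ρ K R 1 := by
  intro L _ hL c hc p η i
  refine st_MBJ_one N hN (∑ e, c e) 0 R L hL c ?_ p η i
  intro e
  refine ⟨hc.nn e, ?_⟩
  rw [neg_zero, zero_mul, Real.exp_zero, mul_one]
  exact Finset.single_le_sum (f := c) (fun e _ => hc.nn e) (Finset.mem_univ e)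

theorem MBF_mono {N : ℕ} {ρ K R m m' : ℝ} (h : MBF N ρ K R m) (hm : m ≤ m') :
    MBF N ρ K R m' := fun L _ hL c hc p η i => (h L hL c hc p η i).trans hm

theorem nice_of {L : ℕ} [NeZero L] {ρ K : ℝ} (m : Tor L × Tor L → ℕ) (n : ℕ)
    (h : Fr ρ K (fun e => (m e : ℝ) / n)) (hn : 0 < n) :
    Nice (gJ m) (1 / (n : ℝ)) ρ K := by
  classical
  have hn' : (0 : ℝ) < n := by exact_mod_cast hn
  refine ⟨by positivity, ?_, ?_, ?_⟩
  · rintro ⟨e, i⟩
    refine h.range e ?_
    have h0 : m e ≠ 0 := by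
      intro h0
      rw [h0] at i
      exact i.elim0
    have : (m e : ℝ) ≠ 0 := by exact_mod_cast h0
    exact div_ne_zero this hn'.ne'
  · intro x
    have e1 : ∑ e ∈ Finset.univ.filter (fun e => (gJ m).s e = x),
        tnorm ((gJ m).t e - (gJ m).s e) ^ 2 =
        ∑ e : Tor L × Tor L, (m e : ℝ) * (if e.1 = x then tnorm (e.2 - e.1) ^ 2 else 0) := by
      rw [Finset.sum_filter]
      exact sum_sig m (fun e => if e.1 = x then tnorm (e.2 - e.1) ^ 2 else 0)
    refine le_trans (le_of_eq ?_) (h.row x)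
    rw [e1, Fintype.sum_prod_type, Finset.sum_eq_single x]
    · rw [Finset.mul_sum]
      refine Finset.sum_congr rfl fun y _ => ?_
      simp only [if_true]
      ring
    · intro b _ hb
      simp [hb]
    · intro h
      exact absurd (Finset.mem_univ x) h
  · intro x
    have e1 : ∑ e ∈ Finset.univ.filter (fun e => (gJ m).t e = x),
        tnorm ((gJ m).t e - (gJ m).s e) ^ 2 =
        ∑ e : Tor L × Tor L, (m e : ℝ) * (if e.2 = x then tnorm (e.2 - e.1) ^ 2 else 0) := by
      rw [Finset.sum_filter]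
      exact sum_sig m (fun e => if e.2 = x then tnorm (e.2 - e.1) ^ 2 else 0)
    refine le_trans (le_of_eq ?_) (h.col x)
    rw [e1, Fintype.sum_prod_type_right, Finset.sum_eq_single x]
    · rw [Finset.mul_sum]
      refine Finset.sum_congr rfl fun y _ => ?_
      simp only [if_true]
      ring
    · intro b _ hb
      simp [hb]
    · intro h
      exact absurd (Finset.mem_univ x) h

/-- rational approximation -/
theorem approx {L : ℕ} [NeZero L] {ρ K : ℝ} {c : Tor L × Tor L → ℝ} (hc : Fr ρ K c) (p : Tor L)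
    (R : ℝ) {δ : ℝ} (hδ : 0 < δ) :
    ∃ (m : Tor L × Tor L → ℕ) (n : ℕ), 0 < n ∧ Fr ρ K (fun e => (m e : ℝ) / n) ∧
      ∀ (N : ℕ), N ≠ 0 → ∀ (η : Conf N L) (F : Conf N L → ℝ), Measurable F →
        (∀ S, |F S| ≤ 1) →
        |gH (pS c) (ball p R) η F - gH (fun S => (1 / (n : ℝ)) * enG (gJ m) S) (ball p R) η F| ≤
          δ := by
  classical
  obtain ⟨M, hM⟩ : ∃ M : ℝ, M = (Fintype.card (Tor L × Tor L) : ℝ) := ⟨_, rfl⟩
  have hM0 : 0 ≤ M := by rw [hM]; positivity
  have hlog : 0 < Real.log (1 + δ) := Real.log_pos (by linarith)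
  obtain ⟨n, hn⟩ : ∃ n : ℕ, n = ⌈2 * M / Real.log (1 + δ)⌉₊ + 1 := ⟨_, rfl⟩
  have hn0 : 0 < n := by omega
  have hn' : (0 : ℝ) < n := by exact_mod_cast hn0
  have hnL : 2 * (M / n) ≤ Real.log (1 + δ) := by
    rw [← mul_div_assoc, div_le_iff₀ hn', ← div_le_iff₀' hlog]
    refine (Nat.le_ceil _).trans ?_
    rw [hn]
    push_cast
    linarith
  let m : Tor L × Tor L → ℕ := fun e => ⌊(n : ℝ) * c e⌋₊
  have hmc : ∀ e, (m e : ℝ) / n ≤ c e := by
    intro e
    rw [div_le_iff₀ hn', mul_comm (c e)]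
    exact Nat.floor_le (mul_nonneg hn'.le (hc.nn e))
  have hmr : ∀ e, (m e : ℝ) / n ≠ 0 → c e ≠ 0 := by
    intro e he hcon
    apply he
    simp only [m]
    rw [hcon]
    simp
  have hFr : Fr ρ K (fun e => (m e : ℝ) / n) := by
    refine ⟨fun e => by positivity, fun e he => hc.range e (hmr e he), fun x => ?_, fun x => ?_⟩
    · exact (Finset.sum_le_sum fun y _ =>
        mul_le_mul_of_nonneg_right (hmc (x, y)) (sq_nonneg _)).trans (hc.row x)
    · exact (Finset.sum_le_sum fun y _ =>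
        mul_le_mul_of_nonneg_right (hmc (y, x)) (sq_nonneg _)).trans (hc.col x)
  refine ⟨m, n, hn0, hFr, ?_⟩
  intro N hN η F hF hF1
  have hd1 : ∀ e, c e - (m e : ℝ) / n ≤ 1 / n := by
    intro e
    have e2 : (n : ℝ) * c e < (⌊(n : ℝ) * c e⌋₊ : ℝ) + 1 := Nat.lt_floor_add_one _
    rw [sub_le_iff_le_add, ← add_div, le_div_iff₀ hn', mul_comm]
    simp only [m]
    linarith
  have hcmp : ∀ S : Conf N L, |pS c (splice (ball p R) S η) -
      (1 / (n : ℝ)) * enG (gJ m) (splice (ball p R) S η) - 0| ≤ M / n := by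
    intro S
    rw [enG_gJ, sub_zero]
    unfold pS
    rw [← Finset.sum_sub_distrib]
    have h1 : ∀ e : Tor L × Tor L, |c e * inner ℝ
        (splice (ball p R) S η e.1 : EuclideanSpace ℝ (Fin N)) (splice (ball p R) S η e.2) -
        (m e : ℝ) / n * inner ℝ
        (splice (ball p R) S η e.1 : EuclideanSpace ℝ (Fin N)) (splice (ball p R) S η e.2)| ≤
        1 / n := by
      intro e
      rw [← sub_mul, abs_mul, abs_of_nonneg (by linarith [hmc e])]
      refine le_trans (mul_le_of_le_one_right (by linarith [hmc e]) (inner_le_one _ _)) (hd1 e)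
    refine (Finset.abs_sum_le_sum_abs _ _).trans ((Finset.sum_le_sum fun e _ => h1 e).trans ?_)
    rw [Finset.sum_const, Finset.card_univ, nsmul_eq_mul, hM]
    exact le_of_eq (by ring)
  have hfin := gH_compare hN (continuous_pS c) (H' := fun S => (1 / (n : ℝ)) * enG (gJ m) S)
    (continuous_const.mul (continuous_enG (gJ m))) (ball p R) η 0 (M / n) hcmp hF hF1
  refine hfin.trans ?_
  have h2 := Real.exp_le_exp.2 hnL
  rw [Real.exp_log (by linarith)] at h2
  linarith

end Pool.Agent.H970.SL
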