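import Pool.Agent.H970.SL.Approx
import Pool.Graph.R_seed8.Results.MP_8be4c0_mp.QuasiTwoDimensional

/-! # Embedding of quasi-two-dimensional models of thickness `W` -/

set_option autoImplicit false
set_option linter.unusedSectionVars false

noncomputable section

namespace Pool.Agent.H970.SL

open MeasureTheory Pool.Agent.H5R2.ON Pool.Agent.H717R2.ON3 Pool.Agent.H983R2.ONJ
open Pool.Agent.Results.MP_8be4c0_mp.QuasiTwoDimensional (dist2 CellBound corr exists_idx cpl P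
  tnorm_ct pair_inj P_inj corr_eq siz ct dist2_nonneg abs_fst_le abs_snd_le dist2_le
  abs_fst_le_znorm abs_snd_le_znorm znorm_le)

/-- The couplings between different sites are ferromagnetic and of range one, and the total
coupling of every site with all others is at most `κ`. -/
structure ShortRange {V : Type} (p : V → ℝ × ℝ) (κ : ℝ) (J : V → V → ℝ) : Prop where
  nonneg : ∀ x y, x ≠ y → 0 ≤ J x y
  range : ∀ x y, x ≠ y → 1 < dist2 (p x) (p y) → J x y = 0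
  total : ∀ (x : V) (Λ : Finset V), x ∉ Λ → ∑ y ∈ Λ, (J x y + J y x) ≤ κ

/-- The position of `x` after the embedding into `ℤ²`. -/
def pos2 {V : Type} (p : V → ℝ × ℝ) (s : ℕ) (idx : V → ℕ) (x : V) : ℤ × ℤ :=
  ((s : ℤ) * ⌊(p x).1⌋ + ((idx x % s : ℕ) : ℤ), (s : ℤ) * ⌊(p x).2⌋ + ((idx x / s : ℕ) : ℤ))

theorem euclid {s : ℕ} {a b : ℤ} {r t : ℕ} (hr : r < s) (ht : t < s)
    (h : (s : ℤ) * a + r = (s : ℤ) * b + t) : a = b ∧ r = t := by
  have hs0 : (s : ℤ) ≠ 0 := by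
    have : 0 < s := by omega
    exact_mod_cast this.ne'
  have h1 : (r : ℤ) = t := by
    have e := congrArg (fun u : ℤ => u % (s : ℤ)) h
    simp only [Int.mul_add_emod_self_left] at e
    rwa [Int.emod_eq_of_lt (by positivity) (by exact_mod_cast hr),
      Int.emod_eq_of_lt (by positivity) (by exact_mod_cast ht)] at e
  have h2 : (s : ℤ) * a = s * b := by linarith
  exact ⟨mul_left_cancel₀ hs0 h2, by exact_mod_cast h1⟩

theorem coord {s : ℕ} {r t : ℕ} (hr : r < s) (ht : t < s) (u v : ℝ) :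
    |((s : ℝ) * (⌊u⌋ : ℤ) + r) - ((s : ℝ) * (⌊v⌋ : ℤ) + t)| ≤ s * (|u - v| + 2) ∧
      |u - v| ≤ |((s : ℝ) * (⌊u⌋ : ℤ) + r) - ((s : ℝ) * (⌊v⌋ : ℤ) + t)| + 2 := by
  have hr' : (r : ℝ) < s := by exact_mod_cast hr
  have ht' : (t : ℝ) < s := by exact_mod_cast ht
  have hr0 : (0 : ℝ) ≤ r := by positivity
  have ht0 : (0 : ℝ) ≤ t := by positivity
  have hs1 : (1 : ℝ) ≤ s := by
    have : 1 ≤ s := by omega
    exact_mod_cast this
  have a1 := Int.floor_le u
  have a2 := Int.lt_floor_add_one u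
  have a3 := Int.floor_le v
  have a4 := Int.lt_floor_add_one v
  obtain ⟨X, hX⟩ : ∃ X : ℝ, X = ((⌊u⌋ : ℤ) : ℝ) := ⟨_, rfl⟩
  obtain ⟨Y, hY⟩ : ∃ Y : ℝ, Y = ((⌊v⌋ : ℤ) : ℝ) := ⟨_, rfl⟩
  rw [← hX] at a1 a2
  rw [← hY] at a3 a4
  rw [← hX, ← hY]
  have hrt : |(r : ℝ) - t| ≤ s := by
    rw [abs_le]
    constructor <;> linarith
  have hXY : |X - Y| ≤ |u - v| + 1 := by
    have h1 := le_abs_self (u - v)
    have h2 := neg_abs_le (u - v)
    rw [abs_le]
    constructor <;> linarith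
  have hXY' : |u - v| ≤ |X - Y| + 1 := by
    have h1 := le_abs_self (X - Y)
    have h2 := neg_abs_le (X - Y)
    rw [abs_le]
    constructor <;> linarith
  have e1 : ((s : ℝ) * X + r) - ((s : ℝ) * Y + t) = s * (X - Y) + (r - t) := by ring
  rw [e1]
  have hmul : |(s : ℝ) * (X - Y)| = s * |X - Y| := by
    rw [abs_mul, abs_of_nonneg (by linarith : (0 : ℝ) ≤ s)]
  constructor
  · refine (abs_add_le _ _).trans ?_
    rw [hmul]
    nlinarith [mul_le_mul_of_nonneg_left hXY (by linarith : (0 : ℝ) ≤ s)]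
  · have h3 : s * |X - Y| ≤ |(s : ℝ) * (X - Y) + (r - t)| + s := by
      have h4 : (s : ℝ) * (X - Y) = ((s : ℝ) * (X - Y) + (r - t)) - (r - t) := by ring
      calc s * |X - Y| = |(s : ℝ) * (X - Y)| := hmul.symm
        _ = |((s : ℝ) * (X - Y) + (r - t)) - (r - t)| := by rw [← h4]
        _ ≤ |(s : ℝ) * (X - Y) + (r - t)| + |(r : ℝ) - t| := abs_sub _ _
        _ ≤ _ := by linarith
    obtain ⟨Z, hZ⟩ : ∃ Z : ℝ, Z = |(s : ℝ) * (X - Y) + (r - t)| := ⟨_, rfl⟩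
    rw [← hZ] at h3 ⊢
    have hZ0 : 0 ≤ Z := by rw [hZ]; exact abs_nonneg _
    have h5 : |X - Y| ≤ Z + 1 := by
      by_contra hcon
      push Not at hcon
      nlinarith
    linarith

theorem pos2_dist {V : Type} (p : V → ℝ × ℝ) {s : ℕ} (idx : V → ℕ) (x y : V)
    (hx : idx x < s * s) (hy : idx y < s * s) :
    znorm (pos2 p s idx x - pos2 p s idx y) ≤ s * (2 * dist2 (p x) (p y) + 4) ∧
      dist2 (p x) (p y) ≤ 2 * znorm (pos2 p s idx x - pos2 p s idx y) + 4 := by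
  have hs : 0 < s := by
    rcases Nat.eq_zero_or_pos s with h | h
    · rw [h] at hx; omega
    · exact h
  have c1 := coord (Nat.mod_lt (idx x) hs) (Nat.mod_lt (idx y) hs) (p x).1 (p y).1
  have c2 := coord (Nat.div_lt_of_lt_mul hx) (Nat.div_lt_of_lt_mul hy) (p x).2 (p y).2
  have e1 : (((pos2 p s idx x - pos2 p s idx y).1 : ℤ) : ℝ) =
      ((s : ℝ) * (⌊(p x).1⌋ : ℤ) + (idx x % s : ℕ)) - ((s : ℝ) * (⌊(p y).1⌋ : ℤ) + (idx y % s : ℕ)) := by
    simp only [pos2, Prod.fst_sub, Int.cast_sub, Int.cast_add, Int.cast_mul, Int.cast_natCast]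
  have e2 : (((pos2 p s idx x - pos2 p s idx y).2 : ℤ) : ℝ) =
      ((s : ℝ) * (⌊(p x).2⌋ : ℤ) + (idx x / s : ℕ)) - ((s : ℝ) * (⌊(p y).2⌋ : ℤ) + (idx y / s : ℕ)) := by
    simp only [pos2, Prod.snd_sub, Int.cast_sub, Int.cast_add, Int.cast_mul, Int.cast_natCast]
  rw [← e1] at c1
  rw [← e2] at c2
  have d1 := abs_fst_le (p x) (p y)
  have d2 := abs_snd_le (p x) (p y)
  have d3 := dist2_le (p x) (p y)
  have z1 := znorm_le (pos2 p s idx x - pos2 p s idx y)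
  have z2 := abs_fst_le_znorm (pos2 p s idx x - pos2 p s idx y)
  have z3 := abs_snd_le_znorm (pos2 p s idx x - pos2 p s idx y)
  have hs' : (0 : ℝ) ≤ s := by positivity
  constructor
  · have h1 := mul_le_mul_of_nonneg_left d1 hs'
    have h2 := mul_le_mul_of_nonneg_left d2 hs'
    nlinarith [c1.1, c2.1]
  · linarith [c1.2, c2.2]

theorem pos2_inj {V : Type} (p : V → ℝ × ℝ) {s : ℕ} (idx : V → ℕ) (Λ : Finset V)
    (hidx : ∀ x ∈ Λ, idx x < s * s)
    (hinj : ∀ x ∈ Λ, ∀ y ∈ Λ, ((⌊(p x).1⌋, ⌊(p x).2⌋) : ℤ × ℤ) = (⌊(p y).1⌋, ⌊(p y).2⌋) →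
      idx x = idx y → x = y) :
    ∀ x ∈ Λ, ∀ y ∈ Λ, pos2 p s idx x = pos2 p s idx y → x = y := by
  intro x hx y hy h
  have hx1 := hidx x hx
  have hy1 := hidx y hy
  have hs : 0 < s := by
    rcases Nat.eq_zero_or_pos s with h | h
    · rw [h] at hx1; omega
    · exact h
  simp only [pos2, Prod.mk.injEq] at h
  obtain ⟨f1, g1⟩ := euclid (Nat.mod_lt (idx x) hs) (Nat.mod_lt (idx y) hs) h.1
  obtain ⟨f2, g2⟩ := euclid (Nat.div_lt_of_lt_mul hx1) (Nat.div_lt_of_lt_mul hy1) h.2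
  refine hinj x hx y hy (Prod.ext f1 f2) ?_
  rw [← Nat.div_add_mod (idx x) s, ← Nat.div_add_mod (idx y) s, g1, g2]

section cpl

variable {V : Type} {p : V → ℝ × ℝ} {κ : ℝ} {J : V → V → ℝ} (Λ : Finset V)

open Classical in
theorem row_sum (h : ShortRange p κ J) (x : Λ) :
    ∑ y : Λ, (if x = y then 0 else J x y) ≤ κ := by
  have h1 := h.total (x : V) (Λ.erase x) (Finset.notMem_erase _ _)
  refine le_trans ?_ h1
  have h2 : ∑ y : Λ, (if x = y then 0 else J x y) =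
      ∑ y ∈ Λ, (if (x : V) = y then 0 else J x y) := by
    rw [← Finset.sum_coe_sort Λ]
    refine Finset.sum_congr rfl fun y _ => ?_
    simp only [Subtype.ext_iff]
  rw [h2, ← Finset.sum_erase_add Λ _ x.2, if_pos rfl, add_zero]
  refine Finset.sum_le_sum fun y hy => ?_
  have hne : y ≠ x := (Finset.mem_erase.1 hy).1
  rw [if_neg (Ne.symm hne)]
  have := h.nonneg y x hne
  linarith

open Classical in
theorem col_sum (h : ShortRange p κ J) (x : Λ) :
    ∑ y : Λ, (if y = x then 0 else J y x) ≤ κ := by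
  have h1 := h.total (x : V) (Λ.erase x) (Finset.notMem_erase _ _)
  refine le_trans ?_ h1
  have h2 : ∑ y : Λ, (if y = x then 0 else J y x) =
      ∑ y ∈ Λ, (if y = (x : V) then 0 else J y x) := by
    rw [← Finset.sum_coe_sort Λ]
    refine Finset.sum_congr rfl fun y _ => ?_
    simp only [Subtype.ext_iff]
  rw [h2, ← Finset.sum_erase_add Λ _ x.2, if_pos rfl, add_zero]
  refine Finset.sum_le_sum fun y hy => ?_
  have hne : y ≠ x := (Finset.mem_erase.1 hy).1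
  rw [if_neg hne]
  have := h.nonneg x y (Ne.symm hne)
  linarith

theorem fr_cpl (q : V → ℤ × ℤ) (hq : ∀ x ∈ Λ, ∀ y ∈ Λ, q x = q y → x = y) (h : ShortRange p κ J)
    (hκ : 0 ≤ κ) {ρ : ℝ} (hρ : ∀ x ∈ Λ, ∀ y ∈ Λ, dist2 (p x) (p y) ≤ 1 → znorm (q y - q x) ≤ ρ) :
    Fr ρ (κ * ρ ^ 2) (cpl Λ q J) := by
  classical
  have hval : ∀ r : Λ × Λ, cpl Λ q J (P Λ q r.1, P Λ q r.2) =
      if r.1 = r.2 then 0 else J r.1 r.2 := fun r => by
    unfold cpl
    exact (pair_inj Λ q hq).extend_apply (fun r : Λ × Λ => if r.1 = r.2 then (0 : ℝ) else J r.1 r.2)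
      (fun _ => 0) r
  have hout : ∀ e, (¬ ∃ r : Λ × Λ, (P Λ q r.1, P Λ q r.2) = e) → cpl Λ q J e = 0 := by
    intro e he
    unfold cpl
    rw [Function.extend_apply' _ _ _ he]
  have hnn : ∀ e, 0 ≤ cpl Λ q J e := by
    intro e
    by_cases he : ∃ r : Λ × Λ, (P Λ q r.1, P Λ q r.2) = e
    · obtain ⟨r, rfl⟩ := he
      rw [hval]
      split_ifs with h1
      · exact le_rfl
      · exact h.nonneg _ _ fun h2 => h1 (Subtype.ext h2)
    · rw [hout e he]
  have hran : ∀ r : Λ × Λ, cpl Λ q J (P Λ q r.1, P Λ q r.2) ≠ 0 →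
      tnorm (P Λ q r.2 - P Λ q r.1) ≤ ρ := by
    intro r hr
    rw [hval] at hr
    have h1 : r.1 ≠ r.2 := by
      intro h1
      rw [if_pos h1] at hr
      exact hr rfl
    rw [if_neg h1] at hr
    have h2 : dist2 (p r.1) (p r.2) ≤ 1 := by
      by_contra h3
      exact hr (h.range _ _ (fun h4 => h1 (Subtype.ext h4)) (not_le.1 h3))
    have h3 : tnorm (P Λ q r.2 - P Λ q r.1) = znorm (q r.2 - q r.1) :=
      tnorm_ct (q := q) r.2.2 r.1.2
    rw [h3]
    exact hρ _ r.1.2 _ r.2.2 h2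
  have hsq : ∀ r : Λ × Λ, cpl Λ q J (P Λ q r.1, P Λ q r.2) * tnorm (P Λ q r.2 - P Λ q r.1) ^ 2 ≤
      (if r.1 = r.2 then 0 else J r.1 r.2) * ρ ^ 2 := by
    intro r
    by_cases h0 : cpl Λ q J (P Λ q r.1, P Λ q r.2) = 0
    · rw [h0, zero_mul, ← hval, h0, zero_mul]
    · rw [hval]
      refine mul_le_mul_of_nonneg_left ?_ ?_
      · exact pow_le_pow_left₀ (tnorm_nonneg _) (hran r h0) 2
      · rw [← hval]
        exact hnn _
  have hinj := P_inj Λ q hq
  refine ⟨hnn, ?_, ?_, ?_⟩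
  · intro e he
    by_cases h1 : ∃ r : Λ × Λ, (P Λ q r.1, P Λ q r.2) = e
    · obtain ⟨r, rfl⟩ := h1
      exact hran r he
    · exact absurd (hout e h1) he
  · intro x
    by_cases hx : ∃ x₀ : Λ, P Λ q x₀ = x
    · obtain ⟨x₀, rfl⟩ := hx
      have h1 : ∑ y : Λ, cpl Λ q J (P Λ q x₀, P Λ q y) * tnorm (P Λ q y - P Λ q x₀) ^ 2 =
          ∑ y, cpl Λ q J (P Λ q x₀, y) * tnorm (y - P Λ q x₀) ^ 2 := by
        refine Fintype.sum_of_injective (P Λ q) hinj _ _ ?_ fun _ => rfl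
        intro y hy
        rw [hout, zero_mul]
        rintro ⟨r, hr⟩
        exact hy ⟨r.2, congrArg Prod.snd hr⟩
      rw [← h1]
      refine (Finset.sum_le_sum fun y _ => hsq (x₀, y)).trans ?_
      rw [← Finset.sum_mul]
      exact mul_le_mul_of_nonneg_right (row_sum Λ h x₀) (sq_nonneg _)
    · refine le_trans (le_of_eq (Finset.sum_eq_zero fun y _ => ?_)) (by positivity)
      rw [hout, zero_mul]
      rintro ⟨r, hr⟩
      exact hx ⟨r.1, congrArg Prod.fst hr⟩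
  · intro x
    by_cases hx : ∃ x₀ : Λ, P Λ q x₀ = x
    · obtain ⟨x₀, rfl⟩ := hx
      have h1 : ∑ y : Λ, cpl Λ q J (P Λ q y, P Λ q x₀) * tnorm (P Λ q x₀ - P Λ q y) ^ 2 =
          ∑ y, cpl Λ q J (y, P Λ q x₀) * tnorm (P Λ q x₀ - y) ^ 2 := by
        refine Fintype.sum_of_injective (P Λ q) hinj _ _ ?_ fun _ => rfl
        intro y hy
        rw [hout, zero_mul]
        rintro ⟨r, hr⟩
        exact hy ⟨r.1, congrArg Prod.fst hr⟩
      rw [← h1]
      refine (Finset.sum_le_sum fun y _ => hsq (y, x₀)).trans ?_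
      rw [← Finset.sum_mul]
      exact mul_le_mul_of_nonneg_right (col_sum Λ h x₀) (sq_nonneg _)
    · refine le_trans (le_of_eq (Finset.sum_eq_zero fun y _ => ?_)) (by positivity)
      rw [hout, zero_mul]
      rintro ⟨r, hr⟩
      exact hx ⟨r.2, congrArg Prod.snd hr⟩

end cpl

end Pool.Agent.H970.SL
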