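import Pool.Agent.H970.SL.Scale
import Pool.Agent.H970.SL.Emb
import Pool.Graph.R_seed8.Results.MP_8be4c0_mp.MassLowerBound

/-! # Quasi-two-dimensional models of thickness `W`: the bounds in finite volume -/

set_option autoImplicit false
set_option linter.unusedSectionVars false

noncomputable section

namespace Pool.Agent.H970.SL

open MeasureTheory Pool.Agent.H5R2.ON Pool.Agent.H717R2.ON3 Pool.Agent.H983R2.ONJ
open Pool.Agent.Y13.QM Pool.Agent.H970.RG
open Pool.Agent.Results.MP_8be4c0_mp.QuasiTwoDimensional (dist2 CellBound corr exists_idx cpl P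
  tnorm_ct pair_inj P_inj corr_eq siz ct dist2_nonneg abs_fst_le abs_snd_le dist2_le
  abs_fst_le_znorm abs_snd_le_znorm znorm_le)

theorem boundN (hM : Pool.Agent.H970.RN.S_main) (hG : Pool.Agent.H970.RN.S_gib) : ∃ C : ℝ, 1 ≤ C ∧ ∀ N : ℕ, 3 ≤ N → ∀ (W : ℕ) (κ : ℝ), 1 ≤ W →
    0 ≤ κ → ∀ (V : Type) (p : V → ℝ × ℝ) (J : V → V → ℝ), CellBound p W → ShortRange p κ J →
    ∀ (Λ : Finset V) (x : V),
      (∀ y, 0 ≤ corr N J Λ x y ∧ corr N J Λ x y ≤ Real.exp 4 *
        Real.exp (-Real.exp (-(C * (1 + κ * W / N + Real.log (1 + Real.log N) + Real.log W))) * dist2 (p x) (p y))) ∧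
      ∑ y ∈ Λ, corr N J Λ x y ≤ Real.exp (C * (1 + κ * W / N + Real.log (1 + Real.log N) + Real.log W)) := by
  classical
  obtain ⟨C0, hC0, hdec⟩ := corFN hM hG
  refine ⟨288 * C0 + 8, by linarith, ?_⟩
  intro N hN W κ hW hκ V p J hp hJ Λ x
  have hN0 : N ≠ 0 := by omega
  have hW1 : (1 : ℝ) ≤ W := by exact_mod_cast hW
  have hlogW : 0 ≤ Real.log W := Real.log_nonneg hW1
  have hN3 : (3 : ℝ) ≤ N := by exact_mod_cast hN
  have hNr : (0 : ℝ) < N := by linarith
  have hg0 : 0 ≤ Real.log (1 + Real.log N) :=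
    Real.log_nonneg (by linarith [Real.log_nonneg (show (1 : ℝ) ≤ N by linarith)])
  obtain ⟨D, hD⟩ : ∃ D : ℝ, D = 1 + κ * W / N + Real.log (1 + Real.log N) + Real.log W :=
    ⟨_, rfl⟩
  have hκW : 0 ≤ κ * W / N := by positivity
  have hD1 : 1 ≤ D := by rw [hD]; linarith
  rw [← hD]
  -- the embedding
  obtain ⟨s, hs⟩ : ∃ s : ℕ, s = Nat.sqrt W + 1 := ⟨_, rfl⟩
  have hWs : W < s * s := by rw [hs]; exact Nat.lt_succ_sqrt W
  have hs4 : s * s ≤ 4 * W := by
    have h1 : 1 ≤ Nat.sqrt W := Nat.sqrt_pos.2 hW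
    have h2 := Nat.sqrt_le W
    rw [hs]
    nlinarith
  have hs4' : (s : ℝ) * s ≤ 4 * W := by exact_mod_cast hs4
  have hs1 : (1 : ℝ) ≤ s := by
    rw [hs]
    push_cast
    have : (0 : ℝ) ≤ (Nat.sqrt W : ℝ) := by positivity
    linarith
  by_cases hx : x ∈ Λ
  swap
  · have h0 : ∀ y, corr N J Λ x y = 0 := by
      intro y
      unfold Pool.Agent.Results.MP_8be4c0_mp.QuasiTwoDimensional.corr
      rw [dif_neg fun h => hx h.1]
    refine ⟨fun y => ?_, ?_⟩
    · rw [h0]
      exact ⟨le_rfl, by positivity⟩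
    · rw [Finset.sum_eq_zero fun y _ => h0 y]
      positivity
  obtain ⟨idx, hidx, hinj⟩ := exists_idx Λ (fun x => (⌊(p x).1⌋, ⌊(p x).2⌋)) W (by
    intro w
    refine le_trans (Set.encard_le_encard ?_) (hp w.1 w.2)
    rintro x ⟨-, hx⟩
    exact ⟨congrArg Prod.fst hx, congrArg Prod.snd hx⟩)
  have hidx' : ∀ x ∈ Λ, idx x < s * s := fun x hx => (hidx x hx).trans hWs
  obtain ⟨q, hqdef⟩ : ∃ q : V → ℤ × ℤ, q = pos2 p s idx := ⟨_, rfl⟩
  have hq : ∀ x ∈ Λ, ∀ y ∈ Λ, q x = q y → x = y := by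
    rw [hqdef]
    exact pos2_inj p idx Λ hidx' hinj
  have hdist : ∀ x ∈ Λ, ∀ y ∈ Λ, znorm (q x - q y) ≤ s * (2 * dist2 (p x) (p y) + 4) ∧
      dist2 (p x) (p y) ≤ 2 * znorm (q x - q y) + 4 := by
    rw [hqdef]
    intro x hx y hy
    exact pos2_dist p idx x y (hidx' x hx) (hidx' y hy)
  have hznn : ∀ z w : ℤ × ℤ, znorm (z - w) = znorm (w - z) := by
    intro z w
    unfold znorm
    congr 1
    simp only [Prod.fst_sub, Prod.snd_sub, Int.cast_sub]
    ring
  have hFr : Fr (6 * s) (κ * (6 * s) ^ 2) (cpl Λ q J) := by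
    refine fr_cpl Λ q hq hJ hκ fun x hx y hy hxy => ?_
    rw [hznn]
    refine ((hdist x hx y hy).1).trans ?_
    nlinarith
  obtain ⟨b, hb⟩ : ∃ b : ℝ, b = Real.exp (-(C0 * (1 + κ * (6 * s) ^ 2 / N + Real.log (1 + Real.log N) + Real.log (6 * s)))) :=
    ⟨_, rfl⟩
  have hb0 : 0 < b := by rw [hb]; exact Real.exp_pos _
  have hlog6 : Real.log (6 * s) ≤ 3 + Real.log W := by
    have h1 : 2 * Real.log (6 * s) = Real.log (36 * (s * s)) := by
      rw [← Real.log_rpow (by positivity)]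
      congr 1
      norm_num
      ring
    have h2 : Real.log (36 * (s * s)) ≤ Real.log (144 * W) :=
      Real.log_le_log (by positivity) (by linarith)
    have h3 : Real.log (144 * W) = Real.log 144 + Real.log W :=
      Real.log_mul (by norm_num) (by linarith)
    have h4 : Real.log 144 ≤ 6 := by
      rw [Real.log_le_iff_le_exp (by norm_num)]
      have h5 : Real.exp 6 = Real.exp 1 ^ 6 := by
        rw [← Real.exp_nat_mul]
        norm_num
      have h6 : (2.7 : ℝ) ≤ Real.exp 1 := by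
        have := Real.exp_one_gt_d9
        linarith
      rw [h5]
      calc (144 : ℝ) ≤ 2.7 ^ 6 := by norm_num
        _ ≤ Real.exp 1 ^ 6 := pow_le_pow_left₀ (by norm_num) h6 6
    linarith
  have hlog0 : 0 ≤ Real.log (6 * s) := Real.log_nonneg (by linarith)
  have hexpo : C0 * (1 + κ * (6 * s) ^ 2 / N + Real.log (1 + Real.log N) + Real.log (6 * s)) ≤ 144 * C0 * D := by
    have h1 : κ * (6 * (s : ℝ)) ^ 2 / N ≤ 144 * (κ * W / N) := by
      have : κ * (6 * (s : ℝ)) ^ 2 = 36 * (κ * (s * s)) := by ring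
      rw [← mul_div_assoc, div_le_div_iff_of_pos_right hNr]
      rw [this]
      have := mul_le_mul_of_nonneg_left hs4' hκ
      linarith
    have h2 : 1 + κ * (6 * (s : ℝ)) ^ 2 / N + Real.log (1 + Real.log N) + Real.log (6 * s) ≤ 144 * D := by
      rw [hD]
      linarith
    calc C0 * (1 + κ * (6 * s) ^ 2 / N + Real.log (1 + Real.log N) + Real.log (6 * s)) ≤ C0 * (144 * D) :=
          mul_le_mul_of_nonneg_left h2 (by linarith)
      _ = 144 * C0 * D := by ring
  have hbD : Real.exp (-(144 * C0 * D)) ≤ b := by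
    rw [hb]
    exact Real.exp_le_exp.2 (neg_le_neg hexpo)
  have hb1 : b ≤ 1 := by
    rw [hb]
    refine Real.exp_le_one_iff.2 ?_
    have : 0 ≤ C0 * (1 + κ * (6 * s) ^ 2 / N + Real.log (1 + Real.log N) + Real.log (6 * s)) := by positivity
    linarith
  have hcor : ∀ y (hy : y ∈ Λ), corr N J Λ x y ≤
      Real.exp 2 * Real.exp (-b * znorm (q x - q y)) := by
    intro y hy
    rw [corr_eq Λ q J hN0 hq hx hy, ← corS_eq]
    refine (hdec (κ * (6 * s) ^ 2) (by positivity) N hN (6 * s) (by linarith) _ _ hFr _ _).trans ?_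
    rw [← hb]
    have h2 : tnorm (P Λ q ⟨x, hx⟩ - P Λ q ⟨y, hy⟩) = znorm (q x - q y) := tnorm_ct hx hy
    rw [h2]
  have hnn : ∀ y, 0 ≤ corr N J Λ x y := by
    intro y
    by_cases hy : y ∈ Λ
    · rw [corr_eq Λ q J hN0 hq hx hy]
      exact Finset.sum_nonneg fun i _ => corJ_nonneg hN0 (fun e => hFr.nn e) i _ _
    · unfold Pool.Agent.Results.MP_8be4c0_mp.QuasiTwoDimensional.corr
      rw [dif_neg fun h => hy h.2]
  refine ⟨fun y => ⟨hnn y, ?_⟩, ?_⟩
  · by_cases hy : y ∈ Λ
    · refine (hcor y hy).trans ?_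
      have h1 := (hdist x hx y hy).2
      have hd0 := dist2_nonneg (p x) (p y)
      have h3 : Real.exp (-((288 * C0 + 8) * D)) ≤ b / 2 := by
        have h4 : Real.exp (-((288 * C0 + 8) * D)) ≤ Real.exp (-1) * Real.exp (-(144 * C0 * D)) := by
          rw [← Real.exp_add]
          refine Real.exp_le_exp.2 ?_
          have : 0 ≤ C0 * D := by positivity
          nlinarith
        have h5 : Real.exp (-1) ≤ 1 / 2 := by
          rw [Real.exp_neg, ← one_div]
          refine one_div_le_one_div_of_le (by norm_num) ?_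
          have := Real.add_one_le_exp (1 : ℝ)
          linarith
        have h6 := Real.exp_pos (-(144 * C0 * D))
        nlinarith
      have h7 : -b * znorm (q x - q y) ≤
          2 + -Real.exp (-((288 * C0 + 8) * D)) * dist2 (p x) (p y) := by
        nlinarith
      calc Real.exp 2 * Real.exp (-b * znorm (q x - q y))
          ≤ Real.exp 2 * Real.exp (2 + -Real.exp (-((288 * C0 + 8) * D)) * dist2 (p x) (p y)) :=
            mul_le_mul_of_nonneg_left (Real.exp_le_exp.2 h7) (Real.exp_pos _).le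
        _ = Real.exp 4 * Real.exp (-Real.exp (-((288 * C0 + 8) * D)) * dist2 (p x) (p y)) := by
            rw [← Real.exp_add, ← Real.exp_add]
            congr 1
            ring
    · unfold Pool.Agent.Results.MP_8be4c0_mp.QuasiTwoDimensional.corr
      rw [dif_neg fun h => hy h.2]
      positivity
  · have hsum := summable_exp_znorm b hb0
    have h1 : ∑ y ∈ Λ, corr N J Λ x y ≤
        ∑ y ∈ Λ, Real.exp 2 * Real.exp (-b * znorm (q x - q y)) :=
      Finset.sum_le_sum fun y hy => hcor y hy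
    have h2 : ∑ y ∈ Λ, Real.exp 2 * Real.exp (-b * znorm (q x - q y)) =
        Real.exp 2 * ∑ k ∈ Λ.image (fun y => q x - q y), Real.exp (-b * znorm k) := by
      rw [Finset.mul_sum, Finset.sum_image]
      intro y hy y' hy' h
      have h3 : q y = q y' := by
        have h3 : q x - q y = q x - q y' := h
        exact sub_right_injective h3
      exact hq y hy y' hy' h3
    have h3 : ∑ k ∈ Λ.image (fun y => q x - q y), Real.exp (-b * znorm k) ≤
        ∑' k : ℤ × ℤ, Real.exp (-b * znorm k) :=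
      hsum.sum_le_tsum _ fun k _ => (Real.exp_pos _).le
    have h4 := Pool.Agent.Results.MP_8be4c0_mp.MassLowerBound.tsum_exp_znorm_le hb0 hb1
    have h5 : 64 / b ^ 2 ≤ 64 * Real.exp (288 * C0 * D) := by
      rw [div_le_iff₀ (by positivity)]
      have h6 : Real.exp (-(144 * C0 * D)) ^ 2 ≤ b ^ 2 :=
        pow_le_pow_left₀ (Real.exp_pos _).le hbD 2
      have h7 : Real.exp (288 * C0 * D) * Real.exp (-(144 * C0 * D)) ^ 2 = 1 := by
        rw [← Real.exp_nat_mul, ← Real.exp_add]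
        have : 288 * C0 * D + ((2 : ℕ) : ℝ) * -(144 * C0 * D) = 0 := by
          push_cast
          ring
        rw [this, Real.exp_zero]
      have h8 := Real.exp_pos (288 * C0 * D)
      nlinarith
    have h64 : (64 : ℝ) ≤ Real.exp 6 := by
      have h5 : (2 : ℝ) ≤ Real.exp 1 := by
        have := Real.add_one_le_exp (1 : ℝ)
        linarith
      have h6 : Real.exp 6 = Real.exp 1 ^ 6 := by
        rw [← Real.exp_nat_mul]
        norm_num
      rw [h6]
      calc (64 : ℝ) = 2 ^ 6 := by norm_num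
        _ ≤ Real.exp 1 ^ 6 := pow_le_pow_left₀ (by norm_num) h5 6
    calc ∑ y ∈ Λ, corr N J Λ x y
        ≤ Real.exp 2 * ∑ k ∈ Λ.image (fun y => q x - q y), Real.exp (-b * znorm k) :=
          h1.trans h2.le
      _ ≤ Real.exp 2 * (64 * Real.exp (288 * C0 * D)) :=
          mul_le_mul_of_nonneg_left (h3.trans (h4.trans h5)) (Real.exp_pos _).le
      _ ≤ Real.exp 2 * (Real.exp 6 * Real.exp (288 * C0 * D)) := by
          refine mul_le_mul_of_nonneg_left ?_ (Real.exp_pos _).le
          exact mul_le_mul_of_nonneg_right h64 (Real.exp_pos _).le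
      _ = Real.exp (8 + 288 * C0 * D) := by
          rw [← Real.exp_add, ← Real.exp_add]
          congr 1
          ring
      _ ≤ Real.exp ((288 * C0 + 8) * D) := by
          refine Real.exp_le_exp.2 ?_
          nlinarith

end Pool.Agent.H970.SL
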