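import Pool.Agent.H970.SL.Approx

/-! # Couplings of finite range: decay of the correlations -/

set_option autoImplicit false
set_option linter.unusedSectionVars false

noncomputable section

namespace Pool.Agent.H970.SL

open MvPolynomial MeasureTheory Pool.Agent.H5R2.ON Pool.Agent.H717R2.ON3 Pool.Agent.H983R2.ONJ
open Pool.Agent.H983R2.ONJ.Aux993 Pool.Agent.H983R2.ONJ.AuxFin269 Pool.Agent.H983R2.ONJ.Aux602
open Pool.Agent.Y13.QM Pool.Agent.H970.RG

theorem stepF (hM : S_main) (ε : ℝ) (hε : 0 < ε) : ∃ C : ℝ, 0 < C ∧ ∀ K : ℝ, 0 ≤ K →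
    ∀ N : ℕ, 3 ≤ N → ∀ R ρ : ℝ, Real.exp (C * (1 + K)) ≤ R → 1 ≤ ρ → ρ ^ 2 ≤ R →
      ∀ m : ℝ, 0 ≤ m → MBF N ρ K (R / 10) m → MBF N ρ K R (ε * m) := by
  obtain ⟨C₀, hC₀, hmain⟩ := hM (ε ^ 2) (by positivity)
  refine ⟨C₀, hC₀, ?_⟩
  intro K hK N hN R ρ hR hρ hρR m hm hMB L _ hL c hc p η i
  have hN0 : N ≠ 0 := by omega
  have hR1 : 1 ≤ R := by nlinarith
  have hRpos : 0 < R := by linarith
  have hsq : ρ ≤ √R := Real.le_sqrt_of_sq_le hρR
  have hFc : Continuous (fun S : Conf N L => cc i (S p)) :=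
    (st_cc_cont _).comp (continuous_apply _)
  refine le_of_forall_pos_le_add fun δ hδ => ?_
  obtain ⟨k, n, hn, hFr, hcomp⟩ := approx hc p R hδ
  have hNice := nice_of k n hFr hn
  have hHeq : (fun S : Conf N L => (1 / (n : ℝ)) * enG (gJ k) S) =
      pS (fun e => (k e : ℝ) / n) := by
    funext S
    exact enG_gJ k n S
  have h1 : |gH (fun S : Conf N L => (1 / (n : ℝ)) * enG (gJ k) S) (ball p R) η
      (fun S => cc i (S p))| ≤ ε * m := by
    refine core hN hε (gJ k) (1 / (n : ℝ)) R m hRpos hm p ?_ ?_ η i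
    · intro W
      exact hmain K hK R hR L hL (gJ k) (1 / (n : ℝ)) ρ hNice hρ hsq p W
    · intro η' j
      rw [hHeq]
      exact hMB L (by linarith) _ hFr p η' j
  have h2 := hcomp N hN0 η (fun S => cc i (S p)) hFc.measurable
    (fun S => st_cc_abs_le _ _)
  have h3 : gH (pS c) (ball p R) η (fun S => cc i (S p)) =
      gH (fun S : Conf N L => (1 / (n : ℝ)) * enG (gJ k) S) (ball p R) η
        (fun S => cc i (S p)) +
      (gH (pS c) (ball p R) η (fun S => cc i (S p)) -
        gH (fun S : Conf N L => (1 / (n : ℝ)) * enG (gJ k) S) (ball p R) η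
          (fun S => cc i (S p))) := by ring
  rw [h3]
  exact (abs_add_le _ _).trans (add_le_add h1 h2)

theorem decayF (hM : S_main) : ∃ C : ℝ, 0 < C ∧ ∀ K : ℝ, 0 ≤ K → ∀ N : ℕ, 3 ≤ N →
    ∀ ρ R₂ : ℝ, 1 ≤ ρ → ρ ^ 2 ≤ R₂ → 10 ≤ R₂ → Real.exp (C * (1 + K)) ≤ R₂ →
    ∀ R : ℝ, 1 ≤ R → MBF N ρ K R (R₂ ^ 4 / R ^ 4) := by
  obtain ⟨C, hC, hstep⟩ := stepF hM (1 / 10000) (by norm_num)
  refine ⟨C, hC, ?_⟩
  intro K hK N hN ρ R₂ hρ hρ2 hR₂2 hR₂0
  have hP : ∀ (k : ℕ) (R : ℝ), 1 ≤ R → R ≤ R₂ * 10 ^ k → MBF N ρ K R (R₂ ^ 4 / R ^ 4) := by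
    have hbase : ∀ R : ℝ, 1 ≤ R → R ≤ R₂ → MBF N ρ K R (R₂ ^ 4 / R ^ 4) := by
      intro R hR hR2
      refine MBF_mono (MBF_one N hN ρ K R) ?_
      rw [le_div_iff₀ (by positivity), one_mul]
      exact pow_le_pow_left₀ (by linarith) hR2 4
    intro k
    induction k with
    | zero =>
      intro R hR hR2
      rw [pow_zero, mul_one] at hR2
      exact hbase R hR hR2
    | succ k ih =>
      intro R hR hR2
      by_cases h : R ≤ R₂
      · exact hbase R hR h
      · push Not at h
        have hRpos : 0 < R := by linarith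
        have h1 : MBF N ρ K (R / 10) (R₂ ^ 4 / (R / 10) ^ 4) := by
          refine ih (R / 10) (by linarith) ?_
          rw [pow_succ] at hR2
          linarith
        have h2 := hstep K hK N hN R ρ (by linarith) hρ (by linarith)
          (R₂ ^ 4 / (R / 10) ^ 4) (by positivity) h1
        refine MBF_mono h2 (le_of_eq ?_)
        field_simp
        norm_num
  intro R hR
  obtain ⟨k, hk⟩ : ∃ k : ℕ, R < R₂ * 10 ^ k := by
    obtain ⟨k, hk⟩ := pow_unbounded_of_one_lt (R / R₂) (by norm_num : (1 : ℝ) < 10)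
    refine ⟨k, ?_⟩
    rw [div_lt_iff₀ (by linarith)] at hk
    linarith
  exact hP k R hR hk.le

theorem one_le_tnorm {L : ℕ} [NeZero L] {z : Tor L} (hz : z ≠ 0) : 1 ≤ tnorm z := by
  unfold tnorm
  rw [Real.one_le_sqrt]
  have key : ∀ a : ZMod L, a ≠ 0 → (1 : ℝ) ≤ (a.valMinAbs : ℝ) ^ 2 := by
    intro a ha
    have h1 : a.valMinAbs ≠ 0 := by
      rwa [Ne, ZMod.valMinAbs_eq_zero]
    have h2 : (1 : ℤ) ≤ a.valMinAbs ^ 2 := by
      have := sq_pos_of_ne_zero h1
      omega
    exact_mod_cast h2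
  by_cases h1 : z.1 = 0
  · have h2 : z.2 ≠ 0 := fun h => hz (Prod.ext h1 h)
    have := key _ h2
    nlinarith [sq_nonneg (z.1.valMinAbs : ℝ)]
  · have := key _ h1
    nlinarith [sq_nonneg (z.2.valMinAbs : ℝ)]

/-- decay for couplings of finite range -/
theorem corF (hM : S_main) : ∃ C : ℝ, 1 ≤ C ∧ ∀ K : ℝ, 0 ≤ K → ∀ N : ℕ, 3 ≤ N →
    ∀ ρ : ℝ, 1 ≤ ρ → ∀ (L : ℕ) [NeZero L] (c : Tor L × Tor L → ℝ), Fr ρ K c → ∀ (x y : Tor L),
      corS (N := N) c x y ≤
        Real.exp 2 * Real.exp (-Real.exp (-(C * (1 + K + Real.log ρ))) * tnorm (x - y)) := by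
  obtain ⟨C1, hC1, hMB'⟩ := decayF hM
  obtain ⟨K0, hK0, hK0b⟩ := ball_card
  -- the constant
  obtain ⟨E, hE⟩ : ∃ E : ℝ, E = C1 + Real.log (1 + K0) + 20 := ⟨_, rfl⟩
  have hlogK : 0 ≤ Real.log (1 + K0) := Real.log_nonneg (by linarith)
  have hE20 : 20 ≤ E := by rw [hE]; linarith
  refine ⟨8 * E + 1, by linarith, ?_⟩
  intro K hK N hN ρ hρ L _ c hc
  have hN0 : N ≠ 0 := by omega
  have hlogρ : 0 ≤ Real.log ρ := Real.log_nonneg hρ
  obtain ⟨R₂, hR₂⟩ : ∃ R₂ : ℝ, R₂ = Real.exp (E * (1 + K + Real.log ρ)) := ⟨_, rfl⟩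
  have hR₂e : Real.exp (C1 * (1 + K)) ≤ R₂ := by
    rw [hR₂]
    refine Real.exp_le_exp.2 ?_
    have h1 : C1 * (1 + K) ≤ E * (1 + K) :=
      mul_le_mul_of_nonneg_right (by rw [hE]; linarith) (by linarith)
    nlinarith
  have hR₂ρ : ρ ^ 2 ≤ R₂ := by
    rw [hR₂]
    have h1 : ρ ^ 2 = Real.exp (2 * Real.log ρ) := by
      rw [mul_comm, Real.exp_mul, Real.exp_log (by linarith)]
      norm_cast
    rw [h1]
    refine Real.exp_le_exp.2 ?_
    nlinarith
  have hR₂21 : 21 ≤ R₂ := by
    rw [hR₂]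
    have h1 := Real.add_one_le_exp (E * (1 + K + Real.log ρ))
    nlinarith [mul_nonneg (show 0 ≤ E by linarith) (show 0 ≤ K + Real.log ρ by linarith)]
  have hR₂K0 : 1 + K0 ≤ R₂ := by
    rw [hR₂, ← Real.exp_log (by linarith : 0 < 1 + K0)]
    refine Real.exp_le_exp.2 ?_
    nlinarith [mul_nonneg (show 0 ≤ E by linarith) (show 0 ≤ K + Real.log ρ by linarith)]
  have hR₂K : 1 + K ≤ R₂ := by
    rw [hR₂]
    have h1 := Real.add_one_le_exp (E * (1 + K + Real.log ρ))
    nlinarith [mul_nonneg (show 0 ≤ E by linarith) (show 0 ≤ K + Real.log ρ by linarith)]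
  obtain ⟨R, hRe⟩ : ∃ R : ℝ, R = R₂ ^ 6 := ⟨_, rfl⟩
  have hR₂0 : 0 < R₂ := by linarith
  have hR₂1 : 1 ≤ R₂ := by linarith
  have hRR₂ : R₂ ≤ R := by
    rw [hRe]
    exact le_self_pow₀ hR₂1 (by norm_num)
  have hR21 : 21 ≤ R := by linarith
  have hR0 : 0 < R := by linarith
  have hρR : 4 * ρ ≤ R := by
    have h1 : ρ ≤ ρ ^ 2 := by nlinarith
    have h2 : R₂ * 4 ≤ R₂ ^ 6 := by
      have h3 : (4 : ℝ) ≤ R₂ ^ 5 := by
        have := le_self_pow₀ hR₂1 (by norm_num : (5 : ℕ) ≠ 0)
        linarith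
      calc R₂ * 4 ≤ R₂ * R₂ ^ 5 := mul_le_mul_of_nonneg_left h3 hR₂0.le
        _ = R₂ ^ 6 := by ring
    rw [hRe]
    nlinarith
  have hMB : ∀ R : ℝ, 1 ≤ R → MBF N ρ K R (R₂ ^ 4 / R ^ 4) :=
    hMB' K hK N hN ρ R₂ hρ hR₂ρ (by linarith) hR₂e
  obtain ⟨b, hb⟩ : ∃ b : ℝ, b = 1 / (2 * R) := ⟨_, rfl⟩
  have hb0 : 0 < b := by rw [hb]; positivity
  have hb' : Real.exp (-((8 * E + 1) * (1 + K + Real.log ρ))) ≤ b := by
    rw [hb, Real.exp_neg, one_div]
    refine inv_anti₀ (by positivity) ?_
    rw [hRe, hR₂, ← Real.exp_nat_mul]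
    have h2 : (2 : ℝ) ≤ Real.exp (1 * (1 + K + Real.log ρ)) := by
      have h1 := Real.add_one_le_exp (1 * (1 + K + Real.log ρ))
      linarith
    calc 2 * Real.exp (((6 : ℕ) : ℝ) * (E * (1 + K + Real.log ρ)))
        ≤ Real.exp (1 * (1 + K + Real.log ρ)) *
          Real.exp (((6 : ℕ) : ℝ) * (E * (1 + K + Real.log ρ))) :=
          mul_le_mul_of_nonneg_right h2 (Real.exp_pos _).le
      _ = Real.exp ((6 * E + 1) * (1 + K + Real.log ρ)) := by
          rw [← Real.exp_add]
          congr 1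
          push_cast
          ring
      _ ≤ _ := by
          refine Real.exp_le_exp.2 ?_
          have : 0 ≤ 1 + K + Real.log ρ := by linarith
          nlinarith
  have hbR : b * (2 * R) = 1 := by
    rw [hb]
    field_simp
  have hc0 : ∀ e, 0 ≤ c e := hc.nn
  -- the bound with rate `b`
  suffices hkey : ∀ x y : Tor L, corS (N := N) c x y ≤
      Real.exp 2 * Real.exp (-b * tnorm (x - y)) by
    intro x y
    refine (hkey x y).trans (mul_le_mul_of_nonneg_left (Real.exp_le_exp.2 ?_) (Real.exp_pos _).le)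
    have := tnorm_nonneg (x - y)
    nlinarith
  by_cases hL : (L : ℝ) ≤ 2 * R
  · intro x y
    have h1 := corS_le_one hN0 c x y
    have h2 : tnorm (x - y) ≤ 2 * R := (tnorm_le_L _).trans hL
    rw [← Real.exp_add]
    refine h1.trans (Real.one_le_exp ?_)
    nlinarith
  push Not at hL
  obtain ⟨m, hm⟩ : ∃ m : ℝ, m = R₂ ^ 4 / (R / 4) ^ 4 := ⟨_, rfl⟩
  have hm0 : 0 ≤ m := by rw [hm]; positivity
  -- the maximum
  obtain ⟨q, -, hq⟩ := Finset.exists_max_image (Finset.univ : Finset (Tor L × Tor L))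
    (fun q => corS (N := N) c q.1 q.2 * Real.exp (b * tnorm (q.1 - q.2))) ⟨(0, 0), Finset.mem_univ _⟩
  obtain ⟨M, hM⟩ : ∃ M : ℝ, M = corS (N := N) c q.1 q.2 * Real.exp (b * tnorm (q.1 - q.2)) :=
    ⟨_, rfl⟩
  have hmax : ∀ x y : Tor L, corS (N := N) c x y ≤ M * Real.exp (-(b * tnorm (x - y))) := by
    intro x y
    have h1 := hq (x, y) (Finset.mem_univ _)
    simp only at h1
    rw [← hM] at h1
    rw [Real.exp_neg, ← div_eq_mul_inv, le_div_iff₀ (Real.exp_pos _)]
    exact h1
  have hM0 : 0 ≤ M := by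
    rw [hM]
    exact mul_nonneg (corS_nonneg hN0 hc0 _ _) (Real.exp_pos _).le
  -- it is at most `e`
  have hMe : M ≤ Real.exp 1 := by
    obtain ⟨p, y⟩ := q
    simp only at hM
    by_cases hpy : tnorm (p - y) ≤ R
    · rw [hM]
      have h1 := corS_le_one hN0 c p y
      have h2 : Real.exp (b * tnorm (p - y)) ≤ Real.exp 1 := by
        refine Real.exp_le_exp.mpr ?_
        nlinarith
      have h3 := corS_nonneg hN0 hc0 p y
      have h4 := Real.exp_pos (b * tnorm (p - y))
      nlinarith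
    · push Not at hpy
      have hyp : R < tnorm (y - p) := by rw [tnorm_sub_comm]; exact hpy
      have hexit := corS_exit hN0 hc0 p y R m hR0 hyp hm0 (fun η i => by
        rw [hm]
        exact hMB (R / 4) (by linarith) L (by linarith) c hc p η i)
      have hterm : ∀ w ∈ ball p R, ∀ w' ∈ (ball p R)ᶜ,
          2 * (c (w, w') + c (w', w)) * (if tnorm (w - p) ≤ R / 2 then 1 else m) *
            corS (N := N) c w' y * Real.exp (b * tnorm (p - y)) ≤
          2 * m * Real.exp 1 * M *
            (c (w, w') * tnorm (w' - w) ^ 2 + c (w', w) * tnorm (w - w') ^ 2) := by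
        intro w hw w' hw'
        simp only [ball, Finset.mem_filter, Finset.mem_univ, true_and, Finset.mem_compl,
          not_le] at hw hw'
        have hne : w' - w ≠ 0 := by
          intro h
          rw [sub_eq_zero] at h
          rw [h] at hw'
          linarith
        have ht1 := one_le_tnorm hne
        have hsymm : tnorm (w - w') = tnorm (w' - w) := tnorm_sub_comm _ _
        obtain ⟨t, ht⟩ : ∃ t : ℝ, t = tnorm (w' - w) := ⟨_, rfl⟩
        obtain ⟨g, hg⟩ : ∃ g : ℝ, g = c (w, w') + c (w', w) := ⟨_, rfl⟩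
        have hg0 : 0 ≤ g := by rw [hg]; exact add_nonneg (hc0 _) (hc0 _)
        rw [← hg, hsymm, ← ht, ← add_mul, ← hg]
        rw [← ht] at ht1
        by_cases hgz : g = 0
        · rw [hgz]
          simp
        have htρ : t ≤ ρ := by
          by_contra hcon
          push Not at hcon
          apply hgz
          have h1 : c (w, w') = 0 := by
            by_contra h
            have := hc.range (w, w') h
            simp only at this
            linarith
          have h2 : c (w', w) = 0 := by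
            by_contra h
            have := hc.range (w', w) h
            simp only at this
            linarith
          rw [hg, h1, h2, add_zero]
        have hfar : ¬ tnorm (w - p) ≤ R / 2 := by
          intro h
          have := tnorm_add_le (w' - w) (w - p)
          rw [sub_add_sub_cancel] at this
          linarith
        rw [if_neg hfar]
        have h6 : tnorm (p - y) ≤ R + t + tnorm (w' - y) := by
          have e1 := tnorm_add_le (p - w) (w - y)
          have e2 := tnorm_add_le (w - w') (w' - y)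
          rw [sub_add_sub_cancel] at e1 e2
          rw [tnorm_sub_comm p w] at e1
          rw [tnorm_sub_comm w w'] at e2
          rw [ht]
          linarith
        have h7 : Real.exp (b * tnorm (p - y)) ≤
            Real.exp 1 * Real.exp (b * tnorm (w' - y)) := by
          rw [← Real.exp_add]
          refine Real.exp_le_exp.mpr ?_
          nlinarith
        have h8 := hmax w' y
        have h9 := corS_nonneg hN0 hc0 w' y
        have h10 : corS (N := N) c w' y * Real.exp (b * tnorm (p - y)) ≤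
            M * Real.exp 1 := by
          calc corS (N := N) c w' y * Real.exp (b * tnorm (p - y))
              ≤ (M * Real.exp (-(b * tnorm (w' - y)))) *
                (Real.exp 1 * Real.exp (b * tnorm (w' - y))) :=
                mul_le_mul h8 h7 (Real.exp_pos _).le (by positivity)
            _ = M * Real.exp 1 *
                (Real.exp (-(b * tnorm (w' - y))) * Real.exp (b * tnorm (w' - y))) := by ring
            _ = M * Real.exp 1 := by
                have h12 : Real.exp (-(b * tnorm (w' - y))) * Real.exp (b * tnorm (w' - y)) = 1 := by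
                  rw [← Real.exp_add, neg_add_cancel, Real.exp_zero]
                rw [h12, mul_one]
        have h13 : g ≤ g * t ^ 2 := le_mul_of_one_le_right hg0 (one_le_pow₀ ht1)
        calc 2 * g * m * corS (N := N) c w' y * Real.exp (b * tnorm (p - y))
            = (2 * g * m) *
              (corS (N := N) c w' y * Real.exp (b * tnorm (p - y))) := by ring
          _ ≤ (2 * g * m) * (M * Real.exp 1) :=
              mul_le_mul_of_nonneg_left h10 (by positivity)
          _ = (2 * m * Real.exp 1 * M) * g := by ring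
          _ ≤ (2 * m * Real.exp 1 * M) * (g * t ^ 2) :=
              mul_le_mul_of_nonneg_left h13 (by positivity)
      -- the sum
      have hsum : M ≤ (K0 * (1 + R) ^ 2) * (2 * m * Real.exp 1 * M * (2 * K)) := by
        calc M = corS (N := N) c p y * Real.exp (b * tnorm (p - y)) := hM
          _ ≤ (∑ w ∈ ball p R, ∑ w' ∈ (ball p R)ᶜ,
              2 * (c (w, w') + c (w', w)) * (if tnorm (w - p) ≤ R / 2 then 1 else m) *
              corS (N := N) c w' y) * Real.exp (b * tnorm (p - y)) :=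
              mul_le_mul_of_nonneg_right hexit (Real.exp_pos _).le
          _ = ∑ w ∈ ball p R, ∑ w' ∈ (ball p R)ᶜ,
              2 * (c (w, w') + c (w', w)) * (if tnorm (w - p) ≤ R / 2 then 1 else m) *
              corS (N := N) c w' y * Real.exp (b * tnorm (p - y)) := by
              rw [Finset.sum_mul]
              exact Finset.sum_congr rfl fun w _ => Finset.sum_mul _ _ _
          _ ≤ ∑ w ∈ ball p R, ∑ w' ∈ (ball p R)ᶜ,
              2 * m * Real.exp 1 * M *
            (c (w, w') * tnorm (w' - w) ^ 2 + c (w', w) * tnorm (w - w') ^ 2) :=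
              Finset.sum_le_sum fun w hw => Finset.sum_le_sum fun w' hw' => hterm w hw w' hw'
          _ ≤ ∑ w ∈ ball p R, 2 * m * Real.exp 1 * M * (2 * K) := by
              refine Finset.sum_le_sum fun w _ => ?_
              rw [← Finset.mul_sum]
              refine mul_le_mul_of_nonneg_left ?_ (by positivity)
              have h1 : ∑ w' ∈ (ball p R)ᶜ,
                  (c (w, w') * tnorm (w' - w) ^ 2 + c (w', w) * tnorm (w - w') ^ 2) ≤
                  ∑ w' : Tor L,
                  (c (w, w') * tnorm (w' - w) ^ 2 + c (w', w) * tnorm (w - w') ^ 2) :=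
                Finset.sum_le_univ_sum_of_nonneg fun w' =>
                  add_nonneg (mul_nonneg (hc0 _) (sq_nonneg _)) (mul_nonneg (hc0 _) (sq_nonneg _))
              have h2 := hc.row w
              have h3 := hc.col w
              have h4 : ∑ w' : Tor L,
                  (c (w, w') * tnorm (w' - w) ^ 2 + c (w', w) * tnorm (w - w') ^ 2) =
                  ∑ w' : Tor L, c (w, w') * tnorm (w' - w) ^ 2 +
                  ∑ w' : Tor L, c (w', w) * tnorm (w - w') ^ 2 := Finset.sum_add_distrib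
              linarith
          _ = ((ball p R).card : ℝ) * (2 * m * Real.exp 1 * M * (2 * K)) := by
              rw [Finset.sum_const, nsmul_eq_mul]
          _ ≤ _ := mul_le_mul_of_nonneg_right (hK0b L p R hR0.le) (by positivity)
      have hcoef : (K0 * (1 + R) ^ 2) * (2 * m * Real.exp 1 * (2 * K)) ≤ 1 / 2 := by
        have h1 : (1 + R) ^ 2 ≤ 4 * R ^ 2 := by nlinarith
        have he : Real.exp 1 ≤ 3 := by
          have := Real.exp_one_lt_d9
          linarith
        have h3 : m * R ^ 2 = 256 * R₂ ^ 4 / R ^ 2 := by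
          rw [hm]
          field_simp
          norm_num
        have h4 : R ^ 2 = R₂ ^ 12 := by rw [hRe]; ring
        calc (K0 * (1 + R) ^ 2) * (2 * m * Real.exp 1 * (2 * K))
            ≤ (K0 * (4 * R ^ 2)) * (2 * m * 3 * (2 * K)) := by gcongr
          _ = 48 * K0 * K * (m * R ^ 2) := by ring
          _ = 12288 * K0 * K * (R₂ ^ 4 / R₂ ^ 12) := by rw [h3, h4]; ring
          _ = 12288 * K0 * K / R₂ ^ 8 := by
              field_simp
          _ ≤ 1 / 2 := by
              rw [div_le_iff₀ (by positivity)]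
              have h5 : K0 * K ≤ R₂ * R₂ :=
                mul_le_mul (by linarith) (by linarith) hK hR₂0.le
              have h6 : (24576 : ℝ) ≤ R₂ ^ 6 := by
                calc (24576 : ℝ) ≤ 21 ^ 6 := by norm_num
                  _ ≤ R₂ ^ 6 := pow_le_pow_left₀ (by norm_num) hR₂21 6
              have h7 : 24576 * (R₂ * R₂) ≤ R₂ ^ 8 := by
                calc 24576 * (R₂ * R₂) ≤ R₂ ^ 6 * (R₂ * R₂) :=
                      mul_le_mul_of_nonneg_right h6 (by positivity)
                  _ = R₂ ^ 8 := by ring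
              nlinarith
      have hfin : M ≤ 1 / 2 * M := by
        calc M ≤ (K0 * (1 + R) ^ 2) * (2 * m * Real.exp 1 * M * (2 * K)) := hsum
          _ = ((K0 * (1 + R) ^ 2) * (2 * m * Real.exp 1 * (2 * K))) * M := by ring
          _ ≤ 1 / 2 * M := mul_le_mul_of_nonneg_right hcoef hM0
      have := Real.exp_pos 1
      linarith
  intro x y
  refine (hmax x y).trans ?_
  rw [neg_mul]
  refine mul_le_mul_of_nonneg_right (hMe.trans ?_) (Real.exp_pos _).le
  exact Real.exp_le_exp.mpr (by norm_num)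

end Pool.Agent.H970.SL
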