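import Pool.Agent.H970.SL.Main
import Pool.Agent.H970.RN.Defs
import Pool.Agent.H643.RN.Inf

/-! # Couplings of finite range: decay of the correlations, uniformly in `N` -/

set_option autoImplicit false
set_option linter.unusedSectionVars false

noncomputable section

namespace Pool.Agent.H970.SL

open MvPolynomial MeasureTheory Pool.Agent.H5R2.ON Pool.Agent.H717R2.ON3 Pool.Agent.H983R2.ONJ
open Pool.Agent.H983R2.ONJ.Aux993 Pool.Agent.H983R2.ONJ.AuxFin269 Pool.Agent.H983R2.ONJ.Aux602
open Pool.Agent.Y13.QM Pool.Agent.H970.RG Pool.Agent.H970.RN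

theorem infF (hM : Pool.Agent.H970.RN.S_main) (hG : Pool.Agent.H970.RN.S_gib) :
    ∃ C : ℝ, 1 ≤ C ∧ ∀ K : ℝ, 0 ≤ K → ∀ N : ℕ, 3 ≤ N → ∀ (n : ℕ) (R ρ : ℝ),
      Real.exp (C * (1 + K / N)) * 400 ^ n ≤ R → 1 ≤ ρ → ρ ^ 2 ≤ R →
        MBF N ρ K R ((1 / 2) ^ (2 ^ n)) := by
  obtain ⟨C₀, hC₀, hmain⟩ := hM
  refine ⟨C₀, hC₀, ?_⟩
  intro K hK N hN n R ρ hR hρ hρR L _ hL c hc p η i
  have hN0 : N ≠ 0 := by omega
  have hsq : ρ ≤ √R := Real.le_sqrt_of_sq_le hρR
  have hFc : Continuous (fun S : Conf N L => cc i (S p)) :=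
    (st_cc_cont _).comp (continuous_apply _)
  refine le_of_forall_pos_le_add fun δ hδ => ?_
  obtain ⟨k, M, hM0, hFr, hcomp⟩ := approx hc p R hδ
  have hNice := nice_of k M hFr hM0
  have h1 : |gH (fun S : Conf N L => (1 / (M : ℝ)) * enG (gJ k) S) (ball p R) η
      (fun S => cc i (S p))| ≤ (1 / 2) ^ (2 ^ n) := by
    obtain ⟨W, hW⟩ := hG N hN0 L (gJ k) (1 / (M : ℝ)) (ball p R) η
    have h2 := hmain N hN K hK n R hR L hL (gJ k) (1 / (M : ℝ)) ρ hNice hρ hsq p W i
    rw [hW] at h2
    have h3 : (fun S : Conf N L => eval (ptN S) (X (p, i) : AlgN N (Tor L))) =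
        fun S => cc i (S p) := by
      funext S
      rw [eval_X]
      rfl
    rw [h3] at h2
    exact h2
  have h2 := hcomp N hN0 η (fun S => cc i (S p)) hFc.measurable
    (fun S => st_cc_abs_le _ _)
  have h3 : gH (pS c) (ball p R) η (fun S => cc i (S p)) =
      gH (fun S : Conf N L => (1 / (M : ℝ)) * enG (gJ k) S) (ball p R) η
        (fun S => cc i (S p)) +
      (gH (pS c) (ball p R) η (fun S => cc i (S p)) -
        gH (fun S : Conf N L => (1 / (M : ℝ)) * enG (gJ k) S) (ball p R) η
          (fun S => cc i (S p))) := by ring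
  rw [h3]
  exact (abs_add_le _ _).trans (add_le_add h1 h2)

theorem coreF {K K0 : ℝ} (hK : 0 ≤ K) (hK0 : 0 ≤ K0)
    (hK0b : ∀ (L : ℕ) [NeZero L] (p : Tor L) (R : ℝ), 0 ≤ R →
      ((ball p R).card : ℝ) ≤ K0 * (1 + R) ^ 2) {N : ℕ} (hN : 3 ≤ N) {ρ R m : ℝ}
    (hρ : 1 ≤ ρ) (hR21 : 21 ≤ R) (hρR : 4 * ρ ≤ R) (hm0 : 0 ≤ m) (hMB : MBF N ρ K (R / 4) m)
    (hcoef : (K0 * (1 + R) ^ 2) * (2 * m * Real.exp 1 * (2 * K)) ≤ 1 / 2)
    {L : ℕ} [NeZero L] (c : Tor L × Tor L → ℝ) (hc : Fr ρ K c) {b : ℝ} (hb : b = 1 / (2 * R)) :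
    ∀ x y : Tor L, corS (N := N) c x y ≤ Real.exp 2 * Real.exp (-b * tnorm (x - y)) := by
  have hN0 : N ≠ 0 := by omega
  have hR0 : 0 < R := by linarith
  have hb0 : 0 < b := by rw [hb]; positivity
  have hbR : b * (2 * R) = 1 := by
    rw [hb]
    field_simp
  have hc0 : ∀ e, 0 ≤ c e := hc.nn
  by_cases hL : (L : ℝ) ≤ 2 * R
  · intro x y
    have h1 := corS_le_one hN0 c x y
    have h2 : tnorm (x - y) ≤ 2 * R := (tnorm_le_L _).trans hL
    rw [← Real.exp_add]
    refine h1.trans (Real.one_le_exp ?_)
    nlinarith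
  push Not at hL
  -- the maximum
  obtain ⟨q, -, hq⟩ := Finset.exists_max_image (Finset.univ : Finset (Tor L × Tor L))
    (fun q => corS (N := N) c q.1 q.2 * Real.exp (b * tnorm (q.1 - q.2))) ⟨(0, 0), Finset.mem_univ _⟩
  obtain ⟨M, hM⟩ : ∃ M : ℝ, M = corS (N := N) c q.1 q.2 * Real.exp (b * tnorm (q.1 - q.2)) :=
    ⟨_, rfl⟩
  have hmax : ∀ x y : Tor L, corS (N := N) c x y ≤ M * Real.exp (-(b * tnorm (x - y))) := by
    intro x y
    have h1 := hq (x, y) (Finset.mem_univ _)
    simp only at h1
    rw [← hM] at h1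
    rw [Real.exp_neg, ← div_eq_mul_inv, le_div_iff₀ (Real.exp_pos _)]
    exact h1
  have hM0 : 0 ≤ M := by
    rw [hM]
    exact mul_nonneg (corS_nonneg hN0 hc0 _ _) (Real.exp_pos _).le
  -- it is at most `e`
  have hMe : M ≤ Real.exp 1 := by
    obtain ⟨p, y⟩ := q
    simp only at hM
    by_cases hpy : tnorm (p - y) ≤ R
    · rw [hM]
      have h1 := corS_le_one hN0 c p y
      have h2 : Real.exp (b * tnorm (p - y)) ≤ Real.exp 1 := by
        refine Real.exp_le_exp.mpr ?_
        nlinarith
      have h3 := corS_nonneg hN0 hc0 p y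
      have h4 := Real.exp_pos (b * tnorm (p - y))
      nlinarith
    · push Not at hpy
      have hyp : R < tnorm (y - p) := by rw [tnorm_sub_comm]; exact hpy
      have hexit := corS_exit hN0 hc0 p y R m hR0 hyp hm0 (fun η i =>
        hMB L (by linarith) c hc p η i)
      have hterm : ∀ w ∈ ball p R, ∀ w' ∈ (ball p R)ᶜ,
          2 * (c (w, w') + c (w', w)) * (if tnorm (w - p) ≤ R / 2 then 1 else m) *
            corS (N := N) c w' y * Real.exp (b * tnorm (p - y)) ≤
          2 * m * Real.exp 1 * M *
            (c (w, w') * tnorm (w' - w) ^ 2 + c (w', w) * tnorm (w - w') ^ 2) := by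
        intro w hw w' hw'
        simp only [ball, Finset.mem_filter, Finset.mem_univ, true_and, Finset.mem_compl,
          not_le] at hw hw'
        have hne : w' - w ≠ 0 := by
          intro h
          rw [sub_eq_zero] at h
          rw [h] at hw'
          linarith
        have ht1 := one_le_tnorm hne
        have hsymm : tnorm (w - w') = tnorm (w' - w) := tnorm_sub_comm _ _
        obtain ⟨t, ht⟩ : ∃ t : ℝ, t = tnorm (w' - w) := ⟨_, rfl⟩
        obtain ⟨g, hg⟩ : ∃ g : ℝ, g = c (w, w') + c (w', w) := ⟨_, rfl⟩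
        have hg0 : 0 ≤ g := by rw [hg]; exact add_nonneg (hc0 _) (hc0 _)
        rw [← hg, hsymm, ← ht, ← add_mul, ← hg]
        rw [← ht] at ht1
        by_cases hgz : g = 0
        · rw [hgz]
          simp
        have htρ : t ≤ ρ := by
          by_contra hcon
          push Not at hcon
          apply hgz
          have h1 : c (w, w') = 0 := by
            by_contra h
            have := hc.range (w, w') h
            simp only at this
            linarith
          have h2 : c (w', w) = 0 := by
            by_contra h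
            have := hc.range (w', w) h
            simp only at this
            linarith
          rw [hg, h1, h2, add_zero]
        have hfar : ¬ tnorm (w - p) ≤ R / 2 := by
          intro h
          have := tnorm_add_le (w' - w) (w - p)
          rw [sub_add_sub_cancel] at this
          linarith
        rw [if_neg hfar]
        have h6 : tnorm (p - y) ≤ R + t + tnorm (w' - y) := by
          have e1 := tnorm_add_le (p - w) (w - y)
          have e2 := tnorm_add_le (w - w') (w' - y)
          rw [sub_add_sub_cancel] at e1 e2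
          rw [tnorm_sub_comm p w] at e1
          rw [tnorm_sub_comm w w'] at e2
          rw [ht]
          linarith
        have h7 : Real.exp (b * tnorm (p - y)) ≤
            Real.exp 1 * Real.exp (b * tnorm (w' - y)) := by
          rw [← Real.exp_add]
          refine Real.exp_le_exp.mpr ?_
          nlinarith
        have h8 := hmax w' y
        have h9 := corS_nonneg hN0 hc0 w' y
        have h10 : corS (N := N) c w' y * Real.exp (b * tnorm (p - y)) ≤
            M * Real.exp 1 := by
          calc corS (N := N) c w' y * Real.exp (b * tnorm (p - y))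
              ≤ (M * Real.exp (-(b * tnorm (w' - y)))) *
                (Real.exp 1 * Real.exp (b * tnorm (w' - y))) :=
                mul_le_mul h8 h7 (Real.exp_pos _).le (by positivity)
            _ = M * Real.exp 1 *
                (Real.exp (-(b * tnorm (w' - y))) * Real.exp (b * tnorm (w' - y))) := by ring
            _ = M * Real.exp 1 := by
                have h12 : Real.exp (-(b * tnorm (w' - y))) * Real.exp (b * tnorm (w' - y)) = 1 := by
                  rw [← Real.exp_add, neg_add_cancel, Real.exp_zero]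
                rw [h12, mul_one]
        have h13 : g ≤ g * t ^ 2 := le_mul_of_one_le_right hg0 (one_le_pow₀ ht1)
        calc 2 * g * m * corS (N := N) c w' y * Real.exp (b * tnorm (p - y))
            = (2 * g * m) *
              (corS (N := N) c w' y * Real.exp (b * tnorm (p - y))) := by ring
          _ ≤ (2 * g * m) * (M * Real.exp 1) :=
              mul_le_mul_of_nonneg_left h10 (by positivity)
          _ = (2 * m * Real.exp 1 * M) * g := by ring
          _ ≤ (2 * m * Real.exp 1 * M) * (g * t ^ 2) :=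
              mul_le_mul_of_nonneg_left h13 (by positivity)
      -- the sum
      have hsum : M ≤ (K0 * (1 + R) ^ 2) * (2 * m * Real.exp 1 * M * (2 * K)) := by
        calc M = corS (N := N) c p y * Real.exp (b * tnorm (p - y)) := hM
          _ ≤ (∑ w ∈ ball p R, ∑ w' ∈ (ball p R)ᶜ,
              2 * (c (w, w') + c (w', w)) * (if tnorm (w - p) ≤ R / 2 then 1 else m) *
              corS (N := N) c w' y) * Real.exp (b * tnorm (p - y)) :=
              mul_le_mul_of_nonneg_right hexit (Real.exp_pos _).le
          _ = ∑ w ∈ ball p R, ∑ w' ∈ (ball p R)ᶜ,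
              2 * (c (w, w') + c (w', w)) * (if tnorm (w - p) ≤ R / 2 then 1 else m) *
              corS (N := N) c w' y * Real.exp (b * tnorm (p - y)) := by
              rw [Finset.sum_mul]
              exact Finset.sum_congr rfl fun w _ => Finset.sum_mul _ _ _
          _ ≤ ∑ w ∈ ball p R, ∑ w' ∈ (ball p R)ᶜ,
              2 * m * Real.exp 1 * M *
            (c (w, w') * tnorm (w' - w) ^ 2 + c (w', w) * tnorm (w - w') ^ 2) :=
              Finset.sum_le_sum fun w hw => Finset.sum_le_sum fun w' hw' => hterm w hw w' hw'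
          _ ≤ ∑ w ∈ ball p R, 2 * m * Real.exp 1 * M * (2 * K) := by
              refine Finset.sum_le_sum fun w _ => ?_
              rw [← Finset.mul_sum]
              refine mul_le_mul_of_nonneg_left ?_ (by positivity)
              have h1 : ∑ w' ∈ (ball p R)ᶜ,
                  (c (w, w') * tnorm (w' - w) ^ 2 + c (w', w) * tnorm (w - w') ^ 2) ≤
                  ∑ w' : Tor L,
                  (c (w, w') * tnorm (w' - w) ^ 2 + c (w', w) * tnorm (w - w') ^ 2) :=
                Finset.sum_le_univ_sum_of_nonneg fun w' =>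
                  add_nonneg (mul_nonneg (hc0 _) (sq_nonneg _)) (mul_nonneg (hc0 _) (sq_nonneg _))
              have h2 := hc.row w
              have h3 := hc.col w
              have h4 : ∑ w' : Tor L,
                  (c (w, w') * tnorm (w' - w) ^ 2 + c (w', w) * tnorm (w - w') ^ 2) =
                  ∑ w' : Tor L, c (w, w') * tnorm (w' - w) ^ 2 +
                  ∑ w' : Tor L, c (w', w) * tnorm (w - w') ^ 2 := Finset.sum_add_distrib
              linarith
          _ = ((ball p R).card : ℝ) * (2 * m * Real.exp 1 * M * (2 * K)) := by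
              rw [Finset.sum_const, nsmul_eq_mul]
          _ ≤ _ := mul_le_mul_of_nonneg_right (hK0b L p R hR0.le) (by positivity)
      have hfin : M ≤ 1 / 2 * M := by
        calc M ≤ (K0 * (1 + R) ^ 2) * (2 * m * Real.exp 1 * M * (2 * K)) := hsum
          _ = ((K0 * (1 + R) ^ 2) * (2 * m * Real.exp 1 * (2 * K))) * M := by ring
          _ ≤ 1 / 2 * M := mul_le_mul_of_nonneg_right hcoef hM0
      have := Real.exp_pos 1
      linarith
  intro x y
  refine (hmax x y).trans ?_
  rw [neg_mul]
  refine mul_le_mul_of_nonneg_right (hMe.trans ?_) (Real.exp_pos _).le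
  exact Real.exp_le_exp.mpr (by norm_num)

end Pool.Agent.H970.SL
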