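import Pool.Agent.H970.SL.MainN
import Pool.Graph.R_seed8.H221R2.ON3.Geo1

/-! # The choice of the scale, uniformly in `N` -/

set_option autoImplicit false
set_option linter.unusedSectionVars false

noncomputable section

namespace Pool.Agent.H970.SL

open MvPolynomial MeasureTheory Pool.Agent.H5R2.ON Pool.Agent.H717R2.ON3 Pool.Agent.H983R2.ONJ
open Pool.Agent.H983R2.ONJ.Aux993 Pool.Agent.H983R2.ONJ.AuxFin269 Pool.Agent.H983R2.ONJ.Aux602
open Pool.Agent.Y13.QM Pool.Agent.H970.RG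

theorem pow_lin (n : ℕ) : 48 * n ≤ 2 ^ n + 240 := by
  by_cases h : n ≤ 6
  · interval_cases n <;> norm_num
  · push Not at h
    induction n, h using Nat.le_induction with
    | base => norm_num
    | succ n hn ih =>
      have h1 : 2 ^ 6 ≤ 2 ^ n := Nat.pow_le_pow_right (by norm_num) (by omega)
      rw [pow_succ]
      omega

theorem scaleN (C K0 : ℝ) (hC : 1 ≤ C) (hK0 : 0 < K0) : ∃ C' : ℝ, 1 ≤ C' ∧
    ∀ K : ℝ, 0 ≤ K → ∀ N : ℕ, 3 ≤ N → ∀ ρ : ℝ, 1 ≤ ρ → ∃ (n : ℕ) (R : ℝ), 21 ≤ R ∧ 4 * ρ ≤ R ∧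
      ρ ^ 2 ≤ R / 4 ∧ Real.exp (C * (1 + K / N)) * 400 ^ n ≤ R / 4 ∧
      (K0 * (1 + R) ^ 2) * (2 * (1 / 2) ^ (2 ^ n) * Real.exp 1 * (2 * K)) ≤ 1 / 2 ∧
      2 * R ≤ Real.exp (C' * (1 + K / N + Real.log (1 + Real.log N) + Real.log ρ)) := by
  have hlogK : 0 ≤ Real.log (1 + K0) := Real.log_nonneg (by linarith)
  obtain ⟨A0, hA0⟩ : ∃ A0 : ℝ, A0 = Real.log (1 + K0) + 20 + 4 * C := ⟨_, rfl⟩
  obtain ⟨A, hA⟩ : ∃ A : ℝ, A = 4 * (A0 + 60) := ⟨_, rfl⟩
  have hA1 : 1 ≤ A := by rw [hA, hA0]; linarith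
  have hlog2A : 0 ≤ Real.log (2 * A) := Real.log_nonneg (by linarith)
  refine ⟨4 + C + 12 * Real.log (2 * A) + 14, by linarith, ?_⟩
  intro K hK N hN ρ hρ
  have hN3 : (3 : ℝ) ≤ N := by exact_mod_cast hN
  have hNr : (0 : ℝ) < N := by linarith
  have hlogN : 0 ≤ Real.log N := Real.log_nonneg (by linarith)
  have hlogρ : 0 ≤ Real.log ρ := Real.log_nonneg hρ
  obtain ⟨u, hu⟩ : ∃ u : ℝ, u = K / N := ⟨_, rfl⟩
  obtain ⟨v, hv⟩ : ∃ v : ℝ, v = Real.log ρ := ⟨_, rfl⟩
  obtain ⟨w, hw⟩ : ∃ w : ℝ, w = Real.log N := ⟨_, rfl⟩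
  have hu0 : 0 ≤ u := by rw [hu]; positivity
  have hKu : K = u * N := by rw [hu]; field_simp
  have hv0 : 0 ≤ v := by rw [hv]; exact hlogρ
  have hw0 : 0 ≤ w := by rw [hw]; exact hlogN
  rw [← hu, ← hv, ← hw]
  have hρv : ρ = Real.exp v := by rw [hv, Real.exp_log (by linarith)]
  have hNw : (N : ℝ) = Real.exp w := by rw [hw, Real.exp_log hNr]
  obtain ⟨T, hT⟩ : ∃ T : ℝ, T = 1 + u + w + v := ⟨_, rfl⟩
  have hT1 : 1 ≤ T := by rw [hT]; linarith
  have hAT : 1 ≤ A * T := by nlinarith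
  obtain ⟨k, hk1, hk2⟩ := exists_nat_pow_near hAT (by norm_num : (1 : ℝ) < 2)
  obtain ⟨n, hn⟩ : ∃ n : ℕ, n = k + 1 := ⟨_, rfl⟩
  rw [← hn] at hk2
  have hn2 : (2 : ℝ) ^ n ≤ 2 * (A * T) := by
    rw [hn, pow_succ]
    linarith
  have h400 : (1 : ℝ) ≤ 400 ^ n := one_le_pow₀ (by norm_num)
  have he1 : (2.718 : ℝ) ≤ Real.exp 1 := by
    have := Real.exp_one_gt_d9
    linarith
  have he3 : Real.exp 1 ≤ 3 := by
    have := Real.exp_one_lt_d9
    linarith
  have h400e : (400 : ℝ) ^ n ≤ Real.exp (6 * n) := by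
    have h1 : (400 : ℝ) ≤ Real.exp 6 := by
      have h5 : Real.exp 6 = Real.exp 1 ^ 6 := by
        rw [← Real.exp_nat_mul]
        norm_num
      rw [h5]
      calc (400 : ℝ) ≤ 2.718 ^ 6 := by norm_num
        _ ≤ Real.exp 1 ^ 6 := pow_le_pow_left₀ (by norm_num) he1 6
    calc (400 : ℝ) ^ n ≤ Real.exp 6 ^ n := pow_le_pow_left₀ (by norm_num) h1 n
      _ = Real.exp (6 * n) := by rw [← Real.exp_nat_mul]; ring_nf
  obtain ⟨F, hF⟩ : ∃ F : ℝ, F = C * (1 + u) + 2 * v := ⟨_, rfl⟩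
  have hCu : 0 ≤ C * (1 + u) := by positivity
  have hF0 : 0 ≤ F := by rw [hF]; linarith
  obtain ⟨R, hR⟩ : ∃ R : ℝ, R = 21 * (Real.exp F * 400 ^ n) := ⟨_, rfl⟩
  have hexpF : 1 ≤ Real.exp F := Real.one_le_exp hF0
  have hprod : 1 ≤ Real.exp F * 400 ^ n := by nlinarith
  have hρ2 : ρ ^ 2 ≤ Real.exp F := by
    rw [hρv, ← Real.exp_nat_mul, hF]
    refine Real.exp_le_exp.2 ?_
    push_cast
    linarith
  have hρ2' : ρ ^ 2 ≤ Real.exp F * 400 ^ n := by nlinarith
  have hρρ : ρ ≤ ρ ^ 2 := by nlinarith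
  have hR1 : 1 ≤ R := by rw [hR]; linarith
  have hR4 : R ≤ Real.exp (4 + F + 6 * n) := by
    have h1 : (21 : ℝ) ≤ Real.exp 4 := by
      have h5 : Real.exp 4 = Real.exp 1 ^ 4 := by
        rw [← Real.exp_nat_mul]
        norm_num
      rw [h5]
      calc (21 : ℝ) ≤ 2.718 ^ 4 := by norm_num
        _ ≤ Real.exp 1 ^ 4 := pow_le_pow_left₀ (by norm_num) he1 4
    rw [hR, Real.exp_add, Real.exp_add, mul_assoc]
    exact mul_le_mul h1 (mul_le_mul_of_nonneg_left h400e (by positivity)) (by positivity)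
      (by positivity)
  refine ⟨n, R, by rw [hR]; linarith, by rw [hR]; linarith, by rw [hR]; linarith, ?_, ?_, ?_⟩
  · have h1 : Real.exp (C * (1 + u)) ≤ Real.exp F := Real.exp_le_exp.2 (by rw [hF]; linarith)
    have h2 : Real.exp (C * (1 + u)) * 400 ^ n ≤ Real.exp F * 400 ^ n :=
      mul_le_mul_of_nonneg_right h1 (by positivity)
    rw [hR]
    linarith
  · -- the coefficient
    have hm : ((1 : ℝ) / 2) ^ (2 ^ n) ≤ Real.exp (-((2 : ℝ) ^ n / 2)) := by
      have h1 : (1 : ℝ) / 2 ≤ Real.exp (-(1 / 2)) := by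
        have := Real.add_one_le_exp (-(1 / 2) : ℝ)
        linarith
      calc ((1 : ℝ) / 2) ^ (2 ^ n) ≤ Real.exp (-(1 / 2)) ^ (2 ^ n) :=
            pow_le_pow_left₀ (by norm_num) h1 _
        _ = Real.exp (-((2 : ℝ) ^ n / 2)) := by
            rw [← Real.exp_nat_mul]
            congr 1
            push_cast
            ring
    have hKe : K ≤ Real.exp (u + w) := by
      rw [hKu, Real.exp_add, ← hNw]
      have := Real.add_one_le_exp u
      exact mul_le_mul_of_nonneg_right (by linarith) hNr.le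
    have hK0e : 96 * K0 ≤ Real.exp (5 + Real.log (1 + K0)) := by
      rw [Real.exp_add, Real.exp_log (by linarith)]
      have h1 : (96 : ℝ) ≤ Real.exp 5 := by
        have h5 : Real.exp 5 = Real.exp 1 ^ 5 := by
          rw [← Real.exp_nat_mul]
          norm_num
        rw [h5]
        calc (96 : ℝ) ≤ 2.718 ^ 5 := by norm_num
          _ ≤ Real.exp 1 ^ 5 := pow_le_pow_left₀ (by norm_num) he1 5
      exact mul_le_mul h1 (by linarith) hK0.le (by positivity)
    have hR2 : R ^ 2 ≤ Real.exp (2 * (4 + F + 6 * n)) := by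
      calc R ^ 2 ≤ Real.exp (4 + F + 6 * n) ^ 2 := pow_le_pow_left₀ (by linarith) hR4 2
        _ = Real.exp (2 * (4 + F + 6 * n)) := by rw [← Real.exp_nat_mul]; norm_num
    have hn12 : 12 * (n : ℝ) ≤ (2 : ℝ) ^ n / 4 + 60 := by
      have h1 : (48 * n : ℝ) ≤ 2 ^ n + 240 := by exact_mod_cast pow_lin n
      linarith
    have h1 : (1 + R) ^ 2 ≤ 4 * R ^ 2 := by nlinarith
    have hexp : Real.exp (5 + Real.log (1 + K0)) * Real.exp (u + w) *
        Real.exp (2 * (4 + F + 6 * n)) * Real.exp (-((2 : ℝ) ^ n / 2)) ≤ 1 := by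
      rw [← Real.exp_add, ← Real.exp_add, ← Real.exp_add]
      refine Real.exp_le_one_iff.2 ?_
      have h2 : (A0 + 60) * T ≤ (2 : ℝ) ^ n / 4 := by
        have : A * T = 4 * ((A0 + 60) * T) := by rw [hA]; ring
        linarith
      have h3 : 5 + Real.log (1 + K0) + (u + w) + 2 * (4 + F) + 60 ≤ (A0 + 60) * T := by
        rw [hF, hA0, hT]
        have p1 : 0 ≤ Real.log (1 + K0) * u := mul_nonneg hlogK hu0
        have p2 : 0 ≤ Real.log (1 + K0) * w := mul_nonneg hlogK hw0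
        have p3 : 0 ≤ Real.log (1 + K0) * v := mul_nonneg hlogK hv0
        have p4 : 0 ≤ C * u := by positivity
        have p5 : 0 ≤ C * w := by positivity
        have p6 : 0 ≤ C * v := by positivity
        nlinarith
      linarith
    calc (K0 * (1 + R) ^ 2) * (2 * (1 / 2) ^ (2 ^ n) * Real.exp 1 * (2 * K))
        ≤ (K0 * (4 * R ^ 2)) * (2 * Real.exp (-((2 : ℝ) ^ n / 2)) * 3 * (2 * K)) := by
          gcongr
      _ = 1 / 2 * ((96 * K0) * K * R ^ 2 * Real.exp (-((2 : ℝ) ^ n / 2))) := by ring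
      _ ≤ 1 / 2 * (Real.exp (5 + Real.log (1 + K0)) * Real.exp (u + w) *
        Real.exp (2 * (4 + F + 6 * n)) * Real.exp (-((2 : ℝ) ^ n / 2))) := by
          gcongr
      _ ≤ 1 / 2 * 1 := mul_le_mul_of_nonneg_left hexp (by norm_num)
      _ = 1 / 2 := by norm_num
  · have h2 : (2 : ℝ) ≤ Real.exp 1 := by linarith
    have hn2log : (n : ℝ) ≤ 2 * Real.log (2 * (A * T)) := by
      have h3 : Real.log ((2 : ℝ) ^ n) ≤ Real.log (2 * (A * T)) :=
        Real.log_le_log (by positivity) hn2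
      rw [Real.log_pow] at h3
      have h4 : (0.5 : ℝ) ≤ Real.log 2 := by
        have := Real.log_two_gt_d9
        linarith
      have h5 : (n : ℝ) * 0.5 ≤ n * Real.log 2 := mul_le_mul_of_nonneg_left h4 (by positivity)
      linarith
    have hlogT : Real.log T ≤ u + Real.log (1 + w) + v := by
      have h3 : T ≤ Real.exp u * (1 + w) * Real.exp v := by
        have e1 := Real.add_one_le_exp u
        have e2 := Real.add_one_le_exp v
        calc T ≤ (1 + u) * (1 + w) * (1 + v) := by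
              rw [hT]
              have q1 : 0 ≤ u * w := by positivity
              have q2 : 0 ≤ u * v := by positivity
              have q3 : 0 ≤ w * v := by positivity
              have q4 : 0 ≤ u * w * v := by positivity
              nlinarith
          _ ≤ Real.exp u * (1 + w) * Real.exp v := by
              refine mul_le_mul ?_ (by linarith) (by positivity) (by positivity)
              exact mul_le_mul_of_nonneg_right (by linarith) (by positivity)
      have h4 : Real.log T ≤ Real.log (Real.exp u * (1 + w) * Real.exp v) :=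
        Real.log_le_log (by linarith) h3
      rw [Real.log_mul (by positivity) (by positivity), Real.log_mul (by positivity)
        (by positivity), Real.log_exp, Real.log_exp] at h4
      exact h4
    have hlog2AT : Real.log (2 * (A * T)) = Real.log (2 * A) + Real.log T := by
      rw [← mul_assoc, Real.log_mul (by positivity) (by positivity)]
    have hw1 : 0 ≤ Real.log (1 + w) := Real.log_nonneg (by linarith)
    calc 2 * R ≤ Real.exp 1 * Real.exp (4 + F + 6 * n) :=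
          mul_le_mul h2 hR4 (by linarith) (by positivity)
      _ = Real.exp (5 + F + 6 * n) := by
          rw [← Real.exp_add]
          congr 1
          ring
      _ ≤ _ := by
          refine Real.exp_le_exp.2 ?_
          rw [hF]
          have q1 : 0 ≤ Real.log (2 * A) * u := mul_nonneg hlog2A hu0
          have q2 : 0 ≤ Real.log (2 * A) * Real.log (1 + w) := mul_nonneg hlog2A hw1
          have q3 : 0 ≤ Real.log (2 * A) * v := mul_nonneg hlog2A hv0
          have q4 : 0 ≤ C * u := by positivity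
          have q5 : 0 ≤ C * Real.log (1 + w) := by positivity
          have q6 : 0 ≤ C * v := by positivity
          nlinarith

theorem corFN (hM : Pool.Agent.H970.RN.S_main) (hG : Pool.Agent.H970.RN.S_gib) :
    ∃ C : ℝ, 1 ≤ C ∧ ∀ K : ℝ, 0 ≤ K → ∀ N : ℕ, 3 ≤ N →
    ∀ ρ : ℝ, 1 ≤ ρ → ∀ (L : ℕ) [NeZero L] (c : Tor L × Tor L → ℝ), Fr ρ K c → ∀ (x y : Tor L),
      corS (N := N) c x y ≤ Real.exp 2 * Real.exp (-Real.exp (-(C *
        (1 + K / N + Real.log (1 + Real.log N) + Real.log ρ))) * tnorm (x - y)) := by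
  obtain ⟨C1, hC1, hinf⟩ := infF hM hG
  obtain ⟨K0, hK0, hK0b⟩ := ball_card
  obtain ⟨C', hC', hsc⟩ := scaleN C1 K0 hC1 hK0
  refine ⟨C', hC', ?_⟩
  intro K hK N hN ρ hρ L _ c hc x y
  obtain ⟨n, R, hR21, hρR, hρ2, hexp, hcoef, hR2⟩ := hsc K hK N hN ρ hρ
  have hR0 : 0 < R := by linarith
  have h1 := coreF hK hK0.le (fun L _ p R hR => hK0b L p R hR) hN hρ hR21 hρR (by positivity)
    (hinf K hK N hN n (R / 4) ρ hexp hρ hρ2) hcoef c hc rfl x y
  refine h1.trans (mul_le_mul_of_nonneg_left (Real.exp_le_exp.2 ?_) (Real.exp_pos _).le)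
  have h2 : Real.exp (-(C' * (1 + K / N + Real.log (1 + Real.log N) + Real.log ρ))) ≤
      1 / (2 * R) := by
    rw [Real.exp_neg, one_div]
    exact inv_anti₀ (by positivity) hR2
  have h3 := mul_le_mul_of_nonneg_right h2 (tnorm_nonneg (x - y))
  linarith

end Pool.Agent.H970.SL
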